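import Mathlib

/-!
# Random 0/1 matrices with independent entries and noise rate `q`
-/

namespace Pool.Agent.Helper37.NoisyB

open MeasureTheory ProbabilityTheory

/-- `M` is a random `N × N` matrix with entries in `{false, true}` and independent entries, every
entry being `true` with probability between `q` and `1 - q`. -/
structure IsNoisyMatrix (q : ℝ) {N : ℕ} {Ω : Type} [MeasurableSpace Ω] (μ : Measure Ω)
    (M : Ω → Fin N → Fin N → Bool) : Prop where
  meas : ∀ i j, MeasurableSet {ω | M ω i j = true}
  indep : iIndepSet (fun e : Fin N × Fin N => {ω | M ω e.1 e.2 = true}) μ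
  lower : ∀ i j, q ≤ μ.real {ω | M ω i j = true}
  upper : ∀ i j, μ.real {ω | M ω i j = true} ≤ 1 - q

/-- The matrix `A` has an `n × n` rectangle (`n` rows and `n` columns) of equal entries. -/
def HasRect {N : ℕ} (A : Fin N → Fin N → Bool) (n : ℕ) : Prop :=
  ∃ R C : Finset (Fin N), R.card = n ∧ C.card = n ∧ ∃ b : Bool, ∀ i ∈ R, ∀ j ∈ C, A i j = b

/-- Every random `N × N` matrix with independent entries and noise rate `q` has an `n × n`
rectangle of equal entries with probability at least `1 - η`. -/
def HomRect (q η : ℝ) (N n : ℕ) : Prop :=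
  ∀ (Ω : Type) [MeasurableSpace Ω] (μ : Measure Ω) [IsProbabilityMeasure μ]
    (M : Ω → Fin N → Fin N → Bool), IsNoisyMatrix q μ M → 1 - η ≤ μ.real {ω | HasRect (M ω) n}

/-- The bipartite Ramsey number with noise rate `q`. -/
noncomputable def BN (q : ℝ) (n : ℕ) : ℕ := sInf {N : ℕ | HomRect q (1 / 2) N n}

end Pool.Agent.Helper37.NoisyB
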