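import Mathlib
import Pool.Agent.Helper37.NoisyR.Esym

/-!
# Moments of complete bipartite graphs in a weighted matrix
-/

namespace Pool.Agent.Helper37.NoisyB

open Finset Pool.Agent.Helper37.NoisyR

variable {V U : Type*} [Fintype V] [Fintype U] [DecidableEq V] [DecidableEq U]

/-- Weighted number of maps of `K_{k,l}`. -/
def TT (p : V → U → ℝ) (k l : ℕ) : ℝ := ∑ y : Fin l → U, (∑ i, ∏ j, p i (y j)) ^ k

omit [DecidableEq V] [DecidableEq U] in
theorem nb_TT_eq (p : V → U → ℝ) (k l : ℕ) :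
    TT p k l = ∑ y : Fin l → U, ∑ x : Fin k → V, ∏ a, ∏ j, p (x a) (y j) := by
  classical
  unfold TT
  refine sum_congr rfl fun y _ => ?_
  rw [Finset.sum_pow', Fintype.piFinset_univ]

omit [DecidableEq V] [DecidableEq U] in
theorem nb_TT_swap (p : V → U → ℝ) (k l : ℕ) : TT p k l = TT (fun u v => p v u) l k := by
  rw [nb_TT_eq, nb_TT_eq, sum_comm]
  refine sum_congr rfl fun x _ => sum_congr rfl fun y _ => ?_
  rw [prod_comm]

omit [DecidableEq V] [DecidableEq U] in
theorem nb_TT_nonneg {p : V → U → ℝ} (hp : ∀ i j, 0 ≤ p i j) (k l : ℕ) : 0 ≤ TT p k l :=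
  sum_nonneg fun _ _ => pow_nonneg (sum_nonneg fun _ _ => prod_nonneg fun _ _ => hp _ _) _

theorem nb_cheb {α : Type*} [Fintype α] (g : α → ℝ) (hg : ∀ x, 0 ≤ g x) (k : ℕ) :
    (∑ x, g x ^ k) * ∑ x, g x ≤ Fintype.card α * ∑ x, g x ^ (k + 1) := by
  have h : Monovary (fun x => g x ^ k) g := by
    intro x y hxy
    exact pow_le_pow_left₀ (hg x) hxy.le k
  refine h.sum_mul_sum_le_card_mul_sum.trans (le_of_eq ?_)
  simp_rw [pow_succ]

omit [DecidableEq V] [DecidableEq U] in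
/-- The case `k = 1`: Jensen. -/
theorem nb_TT_one [Nonempty V] {p : V → U → ℝ} (hp : ∀ i j, 0 ≤ p i j)
    (havg : (Fintype.card V : ℝ) * Fintype.card U / 2 ≤ ∑ i, ∑ j, p i j) (l : ℕ) :
    (Fintype.card V : ℝ) * (Fintype.card U / 2) ^ l ≤ TT p 1 l := by
  rw [nb_TT_swap]
  unfold TT
  simp only [Fin.prod_univ_one]
  have key : ∀ l : ℕ, (Fintype.card V : ℝ) * (Fintype.card U / 2) ^ l ≤
      ∑ i, (∑ j, p i j) ^ l := by
    intro l
    induction l with
    | zero => simp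
    | succ l ih =>
      have h1 := nb_cheb (fun i => ∑ j, p i j) (fun i => sum_nonneg fun j _ => hp i j) l
      have hV : (0 : ℝ) < Fintype.card V := by exact_mod_cast Fintype.card_pos
      have h2 : (Fintype.card V : ℝ) * (Fintype.card U / 2) ^ l *
          ((Fintype.card V : ℝ) * Fintype.card U / 2) ≤
          (∑ i, (∑ j, p i j) ^ l) * ∑ i, ∑ j, p i j :=
        mul_le_mul ih havg (by positivity)
          (sum_nonneg fun i _ => pow_nonneg (sum_nonneg fun j _ => hp i j) l)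
      have h3 := h2.trans h1
      have h4 : (Fintype.card V : ℝ) * ((Fintype.card V : ℝ) * (Fintype.card U / 2) ^ (l + 1)) ≤
          Fintype.card V * ∑ i, (∑ j, p i j) ^ (l + 1) := by
        refine le_trans (le_of_eq ?_) h3
        ring
      exact le_of_mul_le_mul_left h4 hV
  have h := key l
  rw [← (Equiv.funUnique (Fin 1) V).sum_comp] at h
  exact h

omit [DecidableEq V] [DecidableEq U] in
theorem nb_TT_step [Nonempty V] [Nonempty U] {p : V → U → ℝ} (hp : ∀ i j, 0 ≤ p i j)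
    (havg : (Fintype.card V : ℝ) * Fintype.card U / 2 ≤ ∑ i, ∑ j, p i j) (k l : ℕ) :
    TT p k l * (Fintype.card V * (1 / 2) ^ l) ≤ TT p (k + 1) l := by
  have hU : (0 : ℝ) < Fintype.card U := by exact_mod_cast Fintype.card_pos
  have h1 := nb_cheb (fun y : Fin l → U => ∑ i, ∏ j, p i (y j))
    (fun y => sum_nonneg fun i _ => prod_nonneg fun j _ => hp i _) k
  have h2 : (Fintype.card V : ℝ) * (Fintype.card U / 2) ^ l ≤
      ∑ y : Fin l → U, ∑ i, ∏ j, p i (y j) := by
    have h3 := nb_TT_one hp havg l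
    unfold TT at h3
    simpa only [pow_one] using h3
  have h4 : TT p k l * ((Fintype.card V : ℝ) * (Fintype.card U / 2) ^ l) ≤
      (∑ y : Fin l → U, (∑ i, ∏ j, p i (y j)) ^ k) * ∑ y : Fin l → U, ∑ i, ∏ j, p i (y j) :=
    mul_le_mul_of_nonneg_left h2 (nb_TT_nonneg hp k l)
  have h5 := h4.trans h1
  rw [Fintype.card_fun, Fintype.card_fin] at h5
  push_cast at h5
  have h6 : (Fintype.card U : ℝ) ^ l * (TT p k l * (Fintype.card V * (1 / 2) ^ l)) ≤
      (Fintype.card U : ℝ) ^ l * TT p (k + 1) l := by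
    refine le_trans (le_of_eq ?_) h5
    rw [div_pow, div_pow, one_pow]
    ring
  exact le_of_mul_le_mul_left h6 (by positivity)

omit [DecidableEq V] [DecidableEq U] in
theorem nb_TT_steps [Nonempty V] [Nonempty U] {p : V → U → ℝ} (hp : ∀ i j, 0 ≤ p i j)
    (havg : (Fintype.card V : ℝ) * Fintype.card U / 2 ≤ ∑ i, ∑ j, p i j) (k l r : ℕ) :
    TT p k l * (Fintype.card V * (1 / 2) ^ l) ^ r ≤ TT p (k + r) l := by
  induction r with
  | zero => simp
  | succ r ih =>
    have h1 := nb_TT_step hp havg (k + r) l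
    rw [pow_succ, ← mul_assoc]
    refine le_trans ?_ h1
    exact mul_le_mul_of_nonneg_right ih (by positivity)

/-- Weighted number of copies of `K_{k,l}`. -/
def SS (p : V → U → ℝ) (k l : ℕ) : ℝ :=
  ∑ B ∈ (univ : Finset U).powersetCard l, ∑ A ∈ (univ : Finset V).powersetCard k,
    ∏ i ∈ A, ∏ j ∈ B, p i j

omit [DecidableEq V] [DecidableEq U] in
theorem nb_mid (p : V → U → ℝ) (k l : ℕ) :
    ∑ B ∈ (univ : Finset U).powersetCard l, (∑ i, ∏ j ∈ B, p i j) ^ k =
      ∑ x : Fin k → V, es (fun j => ∏ a, p (x a) j) univ l := by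
  classical
  have h1 : ∀ B : Finset U, (∑ i, ∏ j ∈ B, p i j) ^ k =
      ∑ x : Fin k → V, ∏ j ∈ B, ∏ a, p (x a) j := by
    intro B
    rw [Finset.sum_pow', Fintype.piFinset_univ]
    exact sum_congr rfl fun x _ => prod_comm
  simp_rw [h1]
  rw [sum_comm]
  rfl

theorem nb_SS_le {p : V → U → ℝ} (hp : ∀ i j, 0 ≤ p i j) (k l : ℕ) :
    (k.factorial : ℝ) * (l.factorial * SS p k l) ≤ TT p k l := by
  have h1 : (k.factorial : ℝ) * SS p k l ≤
      ∑ B ∈ (univ : Finset U).powersetCard l, (∑ i, ∏ j ∈ B, p i j) ^ k := by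
    unfold SS
    rw [mul_sum]
    refine sum_le_sum fun B _ => ?_
    exact nr_es_le (f := fun i => ∏ j ∈ B, p i j) (fun i => prod_nonneg fun j _ => hp i j) univ k
  rw [nb_mid] at h1
  have h2 : (l.factorial : ℝ) * ∑ x : Fin k → V, es (fun j => ∏ a, p (x a) j) univ l ≤
      TT p k l := by
    rw [nb_TT_swap]
    unfold TT
    rw [mul_sum]
    refine sum_le_sum fun x _ => ?_
    exact nr_es_le (f := fun j => ∏ a, p (x a) j) (fun j => prod_nonneg fun a _ => hp _ j) univ l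
  calc (k.factorial : ℝ) * (l.factorial * SS p k l)
      = l.factorial * (k.factorial * SS p k l) := by ring
    _ ≤ _ := (mul_le_mul_of_nonneg_left h1 (by positivity)).trans h2

/-- Lower bound for elementary symmetric sums. -/
theorem nb_es_ge {W : Type*} [Fintype W] [DecidableEq W] {f : W → ℝ} (hf : ∀ v, 0 ≤ f v)
    {δ : ℝ} (hδ : ∀ v, f v ≤ δ) (hδ0 : 0 ≤ δ) (k : ℕ) :
    (∑ v, f v) ^ (k + 1) - ((k + 1 : ℕ) : ℝ) ^ 2 / 2 * δ * (∑ v, f v) ^ k ≤
      ((k + 1).factorial : ℝ) * es f univ (k + 1) := by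
  set s : ℝ := ∑ v, f v with hs
  have hs0 : 0 ≤ s := sum_nonneg fun v _ => hf v
  have h1 : 0 ≤ es f univ (k + 1) := nr_es_nonneg hf _ _
  rcases hs0.eq_or_lt with h0 | h0
  · have h2 : 0 ≤ ((k + 1 : ℕ) : ℝ) ^ 2 / 2 * δ * s ^ k := by positivity
    have h3 : s ^ (k + 1) = 0 := by rw [← h0, zero_pow (by omega)]
    rw [h3]
    have : 0 ≤ ((k + 1).factorial : ℝ) * es f univ (k + 1) := by positivity
    linarith
  · have h2 := nr_es_ge (f := fun v => f v / s) (fun v => div_nonneg (hf v) hs0) univ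
      (by rw [← sum_div, div_self h0.ne']) (δ := δ / s)
      (fun v _ => div_le_div_of_nonneg_right (hδ v) hs0) (by positivity) (k + 1)
    have h3 : es (fun v => f v / s) univ (k + 1) = es f univ (k + 1) / s ^ (k + 1) := by
      unfold es
      rw [sum_div]
      refine sum_congr rfl fun T hT => ?_
      rw [prod_div_distrib, prod_const, (mem_powersetCard.1 hT).2]
    rw [h3] at h2
    have h4 := mul_le_mul_of_nonneg_right h2 (pow_nonneg hs0 (k + 1))
    have h5 : (1 - ((k + 1 : ℕ) : ℝ) ^ 2 / 2 * (δ / s)) * s ^ (k + 1) =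
        s ^ (k + 1) - ((k + 1 : ℕ) : ℝ) ^ 2 / 2 * δ * s ^ k := by
      field_simp
      ring
    have h6 : ((k + 1).factorial : ℝ) * (es f univ (k + 1) / s ^ (k + 1)) * s ^ (k + 1) =
        ((k + 1).factorial : ℝ) * es f univ (k + 1) := by
      field_simp
    rw [h5, h6] at h4
    exact h4

/-- Lower bound for the weighted number of copies of `K_{n,n}`. -/
theorem nb_SS_ge [Nonempty V] [Nonempty U] {p : V → U → ℝ} (hp : ∀ i j, 0 ≤ p i j) {c : ℝ}
    (hpc : ∀ i j, p i j ≤ c) (k l : ℕ) :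
    TT p (k + 1) (l + 1) - ((l + 1 : ℕ) : ℝ) ^ 2 / 2 * c ^ (k + 1) * TT p (k + 1) l -
      ((k + 1 : ℕ) : ℝ) ^ 2 / 2 * c ^ (l + 1) * TT p k (l + 1) ≤
      ((k + 1).factorial : ℝ) * ((l + 1).factorial * SS p (k + 1) (l + 1)) := by
  have hc : 0 ≤ c := by
    obtain ⟨v⟩ := (inferInstance : Nonempty V)
    obtain ⟨u⟩ := (inferInstance : Nonempty U)
    exact (hp v u).trans (hpc v u)
  have hprod : ∀ (B : Finset U) (i : V), ∏ j ∈ B, p i j ≤ c ^ B.card := by
    intro B i
    rw [← prod_const]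
    exact prod_le_prod (fun j _ => hp i j) fun j _ => hpc i j
  -- rows
  have h1 : ∑ B ∈ (univ : Finset U).powersetCard (l + 1), (∑ i, ∏ j ∈ B, p i j) ^ (k + 1) -
      ((k + 1 : ℕ) : ℝ) ^ 2 / 2 * c ^ (l + 1) *
        ∑ B ∈ (univ : Finset U).powersetCard (l + 1), (∑ i, ∏ j ∈ B, p i j) ^ k ≤
      ((k + 1).factorial : ℝ) * SS p (k + 1) (l + 1) := by
    unfold SS
    rw [mul_sum, mul_sum, ← sum_sub_distrib]
    refine sum_le_sum fun B hB => ?_
    have h2 := nb_es_ge (f := fun i => ∏ j ∈ B, p i j) (fun i => prod_nonneg fun j _ => hp i j)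
      (δ := c ^ (l + 1)) (fun i => by
        have := hprod B i
        rwa [(mem_powersetCard.1 hB).2] at this) (by positivity) k
    exact h2
  -- columns
  have h3 : TT p (k + 1) (l + 1) - ((l + 1 : ℕ) : ℝ) ^ 2 / 2 * c ^ (k + 1) * TT p (k + 1) l ≤
      ((l + 1).factorial : ℝ) * ∑ B ∈ (univ : Finset U).powersetCard (l + 1),
        (∑ i, ∏ j ∈ B, p i j) ^ (k + 1) := by
    rw [nb_mid, nb_TT_swap p (k + 1) (l + 1), nb_TT_swap p (k + 1) l]
    unfold TT
    rw [mul_sum, mul_sum, ← sum_sub_distrib]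
    refine sum_le_sum fun x _ => ?_
    exact nb_es_ge (f := fun j => ∏ a, p (x a) j) (fun j => prod_nonneg fun a _ => hp _ j)
      (δ := c ^ (k + 1)) (fun j => by
        calc ∏ a, p (x a) j ≤ ∏ _a : Fin (k + 1), c :=
              prod_le_prod (fun a _ => hp _ j) fun a _ => hpc _ j
          _ = c ^ (k + 1) := by rw [prod_const, card_univ, Fintype.card_fin]) (by positivity) l
  have h4 : ((l + 1).factorial : ℝ) * ∑ B ∈ (univ : Finset U).powersetCard (l + 1),
        (∑ i, ∏ j ∈ B, p i j) ^ k ≤ TT p k (l + 1) := by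
    rw [nb_mid, nb_TT_swap p k (l + 1)]
    unfold TT
    rw [mul_sum]
    refine sum_le_sum fun x _ => ?_
    exact nr_es_le (f := fun j => ∏ a, p (x a) j) (fun j => prod_nonneg fun a _ => hp _ j)
      univ (l + 1)
  have h5 := mul_le_mul_of_nonneg_left h1 (show (0 : ℝ) ≤ ((l + 1).factorial : ℝ) by positivity)
  have h6 := mul_le_mul_of_nonneg_left h4
    (show (0 : ℝ) ≤ ((k + 1 : ℕ) : ℝ) ^ 2 / 2 * c ^ (l + 1) by positivity)
  rw [mul_sub] at h5
  linarith

/-- The ratio bound. -/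
theorem nb_ratio [Nonempty V] [Nonempty U] {p : V → U → ℝ} (hp : ∀ i j, 0 ≤ p i j)
    {c N : ℝ} (hpc : ∀ i j, p i j ≤ c)
    (havg : (Fintype.card V : ℝ) * Fintype.card U / 2 ≤ ∑ i, ∑ j, p i j)
    (hV : (Fintype.card V : ℝ) = N) (hU : (Fintype.card U : ℝ) = N) {n : ℕ} (hn : 1 ≤ n)
    (hsmall : 2 * ((n : ℝ) ^ 2 * (2 * c) ^ n) ≤ N) {r s : ℕ} (hr : r ≤ n) (hs : s ≤ n) :
    SS p (n - r) (n - s) ≤ 2 * ((n.descFactorial r : ℝ) * n.descFactorial s *
      ((2 : ℝ) ^ n / N) ^ r * ((2 : ℝ) ^ (n - r) / N) ^ s) * SS p n n ∧ 0 < SS p n n := by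
  have hN : 0 < N := by
    rw [← hV]
    exact_mod_cast Fintype.card_pos
  have havg' : (Fintype.card U : ℝ) * Fintype.card V / 2 ≤ ∑ j, ∑ i, p i j := by
    rw [sum_comm, mul_comm]
    exact havg
  -- the diagonal term
  have hTpos : 0 < TT p n n := by
    have h1 := nb_TT_steps hp havg 0 n n
    rw [zero_add] at h1
    refine lt_of_lt_of_le ?_ h1
    have h2 : TT p 0 n = (Fintype.card U : ℝ) ^ n := by
      unfold TT
      simp
    rw [h2, hV, hU]
    positivity
  have hdiag : TT p n n / 2 ≤ (n.factorial : ℝ) * (n.factorial * SS p n n) := by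
    obtain ⟨m, rfl⟩ : ∃ m, n = m + 1 := ⟨n - 1, by omega⟩
    have h1 := nb_SS_ge hp hpc m m
    have h2 := nb_TT_step hp havg m (m + 1)
    have h3 := nb_TT_step (p := fun u v => p v u) (fun u v => hp v u) havg' m (m + 1)
    rw [← nb_TT_swap p (m + 1) m, ← nb_TT_swap p (m + 1) (m + 1), hU] at h3
    rw [hV] at h2
    have hc : 0 ≤ c := by
      obtain ⟨v⟩ := (inferInstance : Nonempty V)
      obtain ⟨u⟩ := (inferInstance : Nonempty U)
      exact (hp v u).trans (hpc v u)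
    have h4 : ∀ t : ℝ, 0 ≤ t → t * (N * (1 / 2) ^ (m + 1)) ≤ TT p (m + 1) (m + 1) →
        ((m + 1 : ℕ) : ℝ) ^ 2 / 2 * c ^ (m + 1) * t ≤ TT p (m + 1) (m + 1) / 4 := by
      intro t ht ht2
      have h5 : ((m + 1 : ℕ) : ℝ) ^ 2 * (2 * c) ^ (m + 1) * (t * (N * (1 / 2) ^ (m + 1))) ≤
          N / 2 * TT p (m + 1) (m + 1) :=
        mul_le_mul (by linarith) ht2 (by positivity) (by positivity)
      have h6 : ((m + 1 : ℕ) : ℝ) ^ 2 * (2 * c) ^ (m + 1) * (t * (N * (1 / 2) ^ (m + 1))) =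
          N * (((m + 1 : ℕ) : ℝ) ^ 2 * c ^ (m + 1) * t) := by
        have : (2 * c) ^ (m + 1) * (1 / 2) ^ (m + 1) = c ^ (m + 1) := by
          rw [← mul_pow]
          congr 1
          ring
        calc ((m + 1 : ℕ) : ℝ) ^ 2 * (2 * c) ^ (m + 1) * (t * (N * (1 / 2) ^ (m + 1)))
            = N * (((m + 1 : ℕ) : ℝ) ^ 2 * ((2 * c) ^ (m + 1) * (1 / 2) ^ (m + 1)) * t) := by
              ring
          _ = _ := by rw [this]
      rw [h6] at h5
      have h7 : N * (((m + 1 : ℕ) : ℝ) ^ 2 * c ^ (m + 1) * t) ≤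
          N * (TT p (m + 1) (m + 1) / 2) := by linarith
      have h8 := le_of_mul_le_mul_left h7 hN
      linarith
    have h5 := h4 _ (nb_TT_nonneg hp m (m + 1)) h2
    have h6 := h4 _ (nb_TT_nonneg hp (m + 1) m) h3
    linarith
  have hSS : 0 < SS p n n := by
    by_contra hcon
    push Not at hcon
    have : (n.factorial : ℝ) * (n.factorial * SS p n n) ≤ 0 := by
      rw [← mul_assoc]
      exact mul_nonpos_of_nonneg_of_nonpos (by positivity) hcon
    linarith
  refine ⟨?_, hSS⟩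
  -- moments
  have h1 := nb_TT_steps hp havg (n - r) n r
  have h2 := nb_TT_steps (p := fun u v => p v u) (fun u v => hp v u) havg' (n - s) (n - r) s
  rw [← nb_TT_swap p (n - r) (n - s), ← nb_TT_swap p (n - r) (n - s + s)] at h2
  have hr' : n - r + r = n := by omega
  have hs' : n - s + s = n := by omega
  rw [hr', hV] at h1
  rw [hs', hU] at h2
  have h3 : TT p (n - r) (n - s) * ((N * (1 / 2) ^ (n - r)) ^ s * (N * (1 / 2) ^ n) ^ r) ≤
      TT p n n := by
    rw [← mul_assoc]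
    exact (mul_le_mul_of_nonneg_right h2 (by positivity)).trans h1
  have h4 := nb_SS_le hp (n - r) (n - s)
  have h5 : ((n - r).factorial : ℝ) * n.descFactorial r = n.factorial := by
    exact_mod_cast Nat.factorial_mul_descFactorial hr
  have h6 : ((n - s).factorial : ℝ) * n.descFactorial s = n.factorial := by
    exact_mod_cast Nat.factorial_mul_descFactorial hs
  have h7 : (2 : ℝ) ^ n / N * (N * (1 / 2) ^ n) = 1 := by
    rw [div_pow, one_pow]
    field_simp
  have h8 : (2 : ℝ) ^ (n - r) / N * (N * (1 / 2) ^ (n - r)) = 1 := by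
    rw [div_pow, one_pow]
    field_simp
  set X : ℝ := ((2 : ℝ) ^ n / N) ^ r * ((2 : ℝ) ^ (n - r) / N) ^ s with hX
  have hX1 : X * ((N * (1 / 2) ^ (n - r)) ^ s * (N * (1 / 2) ^ n) ^ r) = 1 := by
    calc X * ((N * (1 / 2) ^ (n - r)) ^ s * (N * (1 / 2) ^ n) ^ r)
        = ((2 : ℝ) ^ n / N * (N * (1 / 2) ^ n)) ^ r *
          ((2 : ℝ) ^ (n - r) / N * (N * (1 / 2) ^ (n - r))) ^ s := by
          rw [hX, mul_pow _ (N * (1 / 2) ^ n), mul_pow _ (N * (1 / 2) ^ (n - r))]
          ring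
      _ = 1 := by rw [h7, h8, one_pow, one_pow, one_mul]
  have hX0 : 0 ≤ X := by positivity
  have h9 : TT p (n - r) (n - s) ≤ X * TT p n n := by
    calc TT p (n - r) (n - s)
        = TT p (n - r) (n - s) * (X * ((N * (1 / 2) ^ (n - r)) ^ s * (N * (1 / 2) ^ n) ^ r)) := by
          rw [hX1, mul_one]
      _ = X * (TT p (n - r) (n - s) * ((N * (1 / 2) ^ (n - r)) ^ s *
          (N * (1 / 2) ^ n) ^ r)) := by ring
      _ ≤ _ := mul_le_mul_of_nonneg_left h3 hX0
  have hf1 : (0 : ℝ) < (n - r).factorial := by positivity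
  have hf2 : (0 : ℝ) < (n - s).factorial := by positivity
  have h10 : ((n - r).factorial : ℝ) * ((n - s).factorial * SS p (n - r) (n - s)) ≤
      ((n - r).factorial : ℝ) * ((n - s).factorial * (2 * ((n.descFactorial r : ℝ) *
        n.descFactorial s * X) * SS p n n)) := by
    calc ((n - r).factorial : ℝ) * ((n - s).factorial * SS p (n - r) (n - s))
        ≤ X * TT p n n := h4.trans h9
      _ ≤ X * (2 * ((n.factorial : ℝ) * (n.factorial * SS p n n))) :=
          mul_le_mul_of_nonneg_left (by linarith) hX0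
      _ = X * (2 * ((((n - r).factorial : ℝ) * n.descFactorial r) *
          ((((n - s).factorial : ℝ) * n.descFactorial s) * SS p n n))) := by rw [h5, h6]
      _ = _ := by ring
  have h11 := le_of_mul_le_mul_left (le_of_mul_le_mul_left h10 hf1) hf2
  refine h11.trans (le_of_eq ?_)
  rw [hX]
  ring

end Pool.Agent.Helper37.NoisyB
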