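import Mathlib
import Pool.Agent.Helper37.NoisyR.WSM
import Pool.Agent.Helper37.NoisyB.Moment

/-!
# Second moment for rectangles
-/

namespace Pool.Agent.Helper37.NoisyB

open Finset MeasureTheory ProbabilityTheory Pool.Agent.Helper37.NoisyR

variable {V U : Type*} [Fintype V] [Fintype U] [DecidableEq V] [DecidableEq U]

/-- Weight of a rectangle. -/
def PP (p : V → U → ℝ) (A : Finset V) (B : Finset U) : ℝ := ∏ i ∈ A, ∏ j ∈ B, p i j

omit [Fintype V] [Fintype U] [DecidableEq V] [DecidableEq U] in
theorem nb_PP_nonneg {p : V → U → ℝ} (hp : ∀ i j, 0 ≤ p i j) (A : Finset V) (B : Finset U) :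
    0 ≤ PP p A B := prod_nonneg fun _ _ => prod_nonneg fun _ _ => hp _ _

omit [Fintype V] [Fintype U] [DecidableEq V] [DecidableEq U] in
theorem nb_PP_le {p : V → U → ℝ} (hp : ∀ i j, 0 ≤ p i j) {c : ℝ} (hpc : ∀ i j, p i j ≤ c)
    (A : Finset V) (B : Finset U) : PP p A B ≤ c ^ (A.card * B.card) := by
  unfold PP
  calc ∏ i ∈ A, ∏ j ∈ B, p i j ≤ ∏ i ∈ A, ∏ j ∈ B, c :=
        prod_le_prod (fun i _ => prod_nonneg fun j _ => hp i j) fun i _ =>
          prod_le_prod (fun j _ => hp i j) fun j _ => hpc i j
    _ = c ^ (A.card * B.card) := by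
        simp only [prod_const]
        rw [← pow_mul, mul_comm]

/-- Mass of the rectangles containing a given one. -/
theorem nb_sup {p : V → U → ℝ} (hp : ∀ i j, 0 ≤ p i j) {c : ℝ} (hpc : ∀ i j, p i j ≤ c)
    (hc : 0 ≤ c) {n : ℕ} (R : Finset V) (C : Finset U) :
    ∑ B ∈ ((univ : Finset U).powersetCard n).filter (fun B => C ⊆ B),
      ∑ A ∈ ((univ : Finset V).powersetCard n).filter (fun A => R ⊆ A), PP p A B ≤
      PP p R C * (c ^ (R.card * (n - C.card) + (n - R.card) * C.card) *
        SS p (n - R.card) (n - C.card)) := by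
  -- one pair of sets
  have hpair : ∀ A B, R ⊆ A → C ⊆ B → A.card = n → B.card = n →
      PP p A B ≤ PP p R C * (c ^ (R.card * (n - C.card) + (n - R.card) * C.card) *
        PP p (A \ R) (B \ C)) := by
    intro A B hRA hCB hA hB
    have h1 : PP p A B = PP p R C * PP p R (B \ C) * (PP p (A \ R) C * PP p (A \ R) (B \ C)) := by
      unfold PP
      rw [← prod_sdiff hRA, mul_comm]
      have h2 : ∀ i, ∏ j ∈ B, p i j = (∏ j ∈ C, p i j) * ∏ j ∈ B \ C, p i j := by
        intro i
        rw [← prod_sdiff hCB, mul_comm]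
      simp_rw [h2, prod_mul_distrib]
    rw [h1]
    have h3 := nb_PP_le hp hpc R (B \ C)
    have h4 := nb_PP_le hp hpc (A \ R) C
    rw [card_sdiff_of_subset hCB, hB] at h3
    rw [card_sdiff_of_subset hRA, hA] at h4
    have n1 := nb_PP_nonneg hp R C
    have n2 := nb_PP_nonneg hp R (B \ C)
    have n3 := nb_PP_nonneg hp (A \ R) C
    have n4 := nb_PP_nonneg hp (A \ R) (B \ C)
    calc PP p R C * PP p R (B \ C) * (PP p (A \ R) C * PP p (A \ R) (B \ C))
        = PP p R C * ((PP p R (B \ C) * PP p (A \ R) C) * PP p (A \ R) (B \ C)) := by ring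
      _ ≤ PP p R C * ((c ^ (R.card * (n - C.card)) * c ^ ((n - R.card) * C.card)) *
          PP p (A \ R) (B \ C)) := by
          refine mul_le_mul_of_nonneg_left ?_ n1
          refine mul_le_mul_of_nonneg_right ?_ n4
          exact mul_le_mul h3 h4 n3 (by positivity)
      _ = _ := by rw [← pow_add]
  calc ∑ B ∈ ((univ : Finset U).powersetCard n).filter (fun B => C ⊆ B),
      ∑ A ∈ ((univ : Finset V).powersetCard n).filter (fun A => R ⊆ A), PP p A B
      ≤ ∑ B ∈ ((univ : Finset U).powersetCard n).filter (fun B => C ⊆ B),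
      ∑ A ∈ ((univ : Finset V).powersetCard n).filter (fun A => R ⊆ A),
        PP p R C * (c ^ (R.card * (n - C.card) + (n - R.card) * C.card) *
          PP p (A \ R) (B \ C)) := by
        refine sum_le_sum fun B hB => sum_le_sum fun A hA => ?_
        rw [mem_filter, mem_powersetCard] at hB hA
        exact hpair A B hA.2 hB.2 hA.1.2 hB.1.2
    _ = PP p R C * (c ^ (R.card * (n - C.card) + (n - R.card) * C.card) *
        ∑ B ∈ ((univ : Finset U).powersetCard n).filter (fun B => C ⊆ B),
      ∑ A ∈ ((univ : Finset V).powersetCard n).filter (fun A => R ⊆ A),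
          PP p (A \ R) (B \ C)) := by
        simp_rw [mul_sum]
    _ ≤ _ := by
        refine mul_le_mul_of_nonneg_left (mul_le_mul_of_nonneg_left ?_ (by positivity))
          (nb_PP_nonneg hp R C)
        have hA : ∀ B : Finset U,
            ∑ A ∈ ((univ : Finset V).powersetCard n).filter (fun A => R ⊆ A), PP p (A \ R) B ≤
            ∑ A ∈ (univ : Finset V).powersetCard (n - R.card), PP p A B := by
          intro B
          rw [← sum_image (f := fun A => PP p A B) (g := fun A => A \ R)
            (s := ((univ : Finset V).powersetCard n).filter (fun A => R ⊆ A))]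
          · refine sum_le_sum_of_subset_of_nonneg ?_ fun A _ _ => nb_PP_nonneg hp A B
            intro A' hA'
            rw [mem_image] at hA'
            obtain ⟨A, hA, rfl⟩ := hA'
            rw [mem_filter, mem_powersetCard] at hA
            rw [mem_powersetCard]
            refine ⟨subset_univ _, ?_⟩
            rw [card_sdiff_of_subset hA.2, hA.1.2]
          · intro A hA A' hA' h
            have hA := (mem_filter.1 (mem_coe.1 hA)).2
            have hA' := (mem_filter.1 (mem_coe.1 hA')).2
            rw [← union_sdiff_of_subset hA, ← union_sdiff_of_subset hA']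
            simp only at h
            rw [h]
        calc ∑ B ∈ ((univ : Finset U).powersetCard n).filter (fun B => C ⊆ B),
            ∑ A ∈ ((univ : Finset V).powersetCard n).filter (fun A => R ⊆ A),
              PP p (A \ R) (B \ C)
            ≤ ∑ B ∈ ((univ : Finset U).powersetCard n).filter (fun B => C ⊆ B),
              ∑ A ∈ (univ : Finset V).powersetCard (n - R.card), PP p A (B \ C) :=
              sum_le_sum fun B _ => hA (B \ C)
          _ ≤ SS p (n - R.card) (n - C.card) := by
              unfold SS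
              rw [← sum_image (f := fun B => ∑ A ∈ (univ : Finset V).powersetCard (n - R.card),
                PP p A B) (g := fun B => B \ C)
                (s := ((univ : Finset U).powersetCard n).filter (fun B => C ⊆ B))]
              · refine sum_le_sum_of_subset_of_nonneg ?_ fun B _ _ =>
                  sum_nonneg fun A _ => nb_PP_nonneg hp A B
                intro B' hB'
                rw [mem_image] at hB'
                obtain ⟨B, hB, rfl⟩ := hB'
                rw [mem_filter, mem_powersetCard] at hB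
                rw [mem_powersetCard]
                refine ⟨subset_univ _, ?_⟩
                rw [card_sdiff_of_subset hB.2, hB.1.2]
              · intro B hB B' hB' h
                have hB := (mem_filter.1 (mem_coe.1 hB)).2
                have hB' := (mem_filter.1 (mem_coe.1 hB')).2
                rw [← union_sdiff_of_subset hB, ← union_sdiff_of_subset hB']
                simp only at h
                rw [h]

/-- The bound for one pair of intersection sizes. -/
noncomputable def GG (c N : ℝ) (n r s : ℕ) : ℝ :=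
  2 * ((n.descFactorial r : ℝ) * n.descFactorial s * ((2 : ℝ) ^ n / N) ^ r *
    ((2 : ℝ) ^ (n - r) / N) ^ s) * c ^ (r * (n - s) + (n - r) * s)

open Classical in
/-- **Second moment bound for rectangles.** -/
theorem nb_rect {n : ℕ} {Ω : Type*} [MeasurableSpace Ω] {μ : Measure Ω}
    [IsProbabilityMeasure μ] [Nonempty V] [Nonempty U] {E : V × U → Set Ω}
    (hE : ∀ e, MeasurableSet (E e)) (hI : iIndepSet E μ) (b : Bool) {c N : ℝ}
    (hpos : ∀ e, 0 < pr μ E b e) (hpc : ∀ e, pr μ E b e ≤ c)
    (havg : (Fintype.card V : ℝ) * Fintype.card U / 2 ≤ ∑ i, ∑ j, pr μ E b (i, j))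
    (hV : (Fintype.card V : ℝ) = N) (hU : (Fintype.card U : ℝ) = N) (hn : 1 ≤ n)
    (hsmall : 2 * ((n : ℝ) ^ 2 * (2 * c) ^ n) ≤ N)
    (Z : Set Ω) (hZ : ∀ ω ∈ Z, ∀ (A : Finset V) (B : Finset U), A.card = n → B.card = n →
      ∃ e ∈ A ×ˢ B, ω ∉ ev E b e) :
    μ.real Z ≤ ∑ r ∈ range (n + 1), ∑ s ∈ range (n + 1),
      if 1 ≤ r ∧ 1 ≤ s then (n.choose r : ℝ) * (n.choose s) * GG c N n r s else 0 := by
  set p : V → U → ℝ := fun i j => pr μ E b (i, j) with hpdef
  have hp0 : ∀ i j, 0 < p i j := fun i j => hpos (i, j)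
  have hp : ∀ i j, 0 ≤ p i j := fun i j => (hp0 i j).le
  have hpc' : ∀ i j, p i j ≤ c := fun i j => hpc (i, j)
  have hc : 0 ≤ c := by
    obtain ⟨v⟩ := (inferInstance : Nonempty V)
    obtain ⟨u⟩ := (inferInstance : Nonempty U)
    exact (hp v u).trans (hpc' v u)
  have hN : 0 < N := by
    rw [← hV]
    exact_mod_cast Fintype.card_pos
  have hSpos : 0 < SS p n n := (nb_ratio hp hpc' havg hV hU hn hsmall le_rfl le_rfl).2
  set S : ℝ := SS p n n with hS
  set Fm : Finset (Finset V × Finset U) :=
    ((univ : Finset V).powersetCard n) ×ˢ ((univ : Finset U).powersetCard n) with hFm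
  set w : Finset V × Finset U → ℝ := fun T => if T ∈ Fm then PP p T.1 T.2 / S else 0 with hw
  have hw0 : ∀ T, 0 ≤ w T := by
    intro T
    simp only [hw]
    split_ifs
    · exact div_nonneg (nb_PP_nonneg hp _ _) hSpos.le
    · exact le_rfl
  have hw1 : ∑ T, w T = 1 := by
    simp only [hw]
    rw [← sum_filter, filter_univ_mem, hFm, sum_product_right]
    simp only
    simp_rw [← sum_div]
    exact div_self hSpos.ne'
  have hD : ∀ T : Finset V × Finset U, ∀ f : V × U → ℝ,
      ∏ e ∈ T.1 ×ˢ T.2, f e = ∏ i ∈ T.1, ∏ j ∈ T.2, f (i, j) := by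
    intro T f
    rw [prod_product]
  refine (nr_wsm hE hI (fun T : Finset V × Finset U => T.1 ×ˢ T.2) (fun _ => b) w hw0 hw1
    (fun T e _ => hpos e) Z (fun ω hω T hT => ?_)).trans ?_
  · have hTF : T ∈ Fm := by
      by_contra h
      exact hT (by simp only [hw, if_neg h])
    rw [hFm, mem_product, mem_powersetCard, mem_powersetCard] at hTF
    exact hZ ω hω T.1 T.2 hTF.1.2 hTF.2.2
  -- correlations
  have key : ∀ T ∈ Fm, ∑ T', w T' * bd μ E (fun T : Finset V × Finset U => T.1 ×ˢ T.2)
      (fun _ => b) T T' ≤ ∑ r ∈ range (n + 1), ∑ s ∈ range (n + 1),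
      if 1 ≤ r ∧ 1 ≤ s then (n.choose r : ℝ) * (n.choose s) * GG c N n r s else 0 := by
    intro T hT
    rw [hFm, mem_product, mem_powersetCard, mem_powersetCard] at hT
    have h1 : ∀ T', w T' * bd μ E (fun T : Finset V × Finset U => T.1 ×ˢ T.2)
        (fun _ => b) T T' ≤ ∑ R ∈ T.1.powerset, ∑ C ∈ T.2.powerset,
          if 1 ≤ R.card ∧ 1 ≤ C.card then
            (if R ⊆ T'.1 ∧ C ⊆ T'.2 then w T' * (PP p R C)⁻¹ else 0) else 0 := by
      intro T'
      have hnn : ∀ (R : Finset V) (C : Finset U), (0 : ℝ) ≤ if 1 ≤ R.card ∧ 1 ≤ C.card then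
            (if R ⊆ T'.1 ∧ C ⊆ T'.2 then w T' * (PP p R C)⁻¹ else 0) else 0 := by
        intro R C
        split_ifs
        · exact mul_nonneg (hw0 T') (inv_nonneg.2 (nb_PP_nonneg hp R C))
        · exact le_rfl
        · exact le_rfl
      unfold bd
      split_ifs with h
      · have h2 := h.2
        rw [product_inter_product] at h2 ⊢
        rw [nonempty_product] at h2
        refine le_trans ?_ (single_le_sum (fun R _ => sum_nonneg fun C _ => hnn R C)
          (mem_powerset.2 inter_subset_left : T.1 ∩ T'.1 ∈ _))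
        refine le_trans ?_ (single_le_sum (fun C _ => hnn _ C)
          (mem_powerset.2 inter_subset_left : T.2 ∩ T'.2 ∈ _))
        rw [if_pos ⟨card_pos.2 h2.1, card_pos.2 h2.2⟩,
          if_pos ⟨inter_subset_right, inter_subset_right⟩]
        refine mul_le_mul_of_nonneg_left (le_of_eq ?_) (hw0 T')
        rw [prod_inv_distrib, prod_product]
        rfl
      · rw [mul_zero]
        exact sum_nonneg fun R _ => sum_nonneg fun C _ => hnn R C
    refine (sum_le_sum fun T' _ => h1 T').trans ?_
    rw [sum_comm]
    have h2 : ∀ R ∈ T.1.powerset, ∑ T', ∑ C ∈ T.2.powerset,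
        (if 1 ≤ R.card ∧ 1 ≤ C.card then
            (if R ⊆ T'.1 ∧ C ⊆ T'.2 then w T' * (PP p R C)⁻¹ else 0) else 0) ≤
        ∑ C ∈ T.2.powerset, if 1 ≤ R.card ∧ 1 ≤ C.card then GG c N n R.card C.card else 0 := by
      intro R hR
      rw [sum_comm]
      refine sum_le_sum fun C hC => ?_
      rw [mem_powerset] at hR hC
      have hRn : R.card ≤ n := by
        rw [← hT.1.2]
        exact card_le_card hR
      have hCn : C.card ≤ n := by
        rw [← hT.2.2]
        exact card_le_card hC
      split_ifs with h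
      · have h3 : ∑ T' : Finset V × Finset U,
            (if R ⊆ T'.1 ∧ C ⊆ T'.2 then w T' * (PP p R C)⁻¹ else 0) =
            (∑ B ∈ ((univ : Finset U).powersetCard n).filter (fun B => C ⊆ B),
              ∑ A ∈ ((univ : Finset V).powersetCard n).filter (fun A => R ⊆ A),
                PP p A B) * (S⁻¹ * (PP p R C)⁻¹) := by
          have h4 : ∀ T' : Finset V × Finset U,
              (if R ⊆ T'.1 ∧ C ⊆ T'.2 then w T' * (PP p R C)⁻¹ else 0) =
              if T' ∈ (((univ : Finset V).powersetCard n).filter (fun A => R ⊆ A)) ×ˢ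
                (((univ : Finset U).powersetCard n).filter (fun B => C ⊆ B)) then
                PP p T'.1 T'.2 * (S⁻¹ * (PP p R C)⁻¹) else 0 := by
            intro T'
            simp only [hw, hFm, mem_product, mem_filter]
            by_cases hA : T'.1 ∈ (univ : Finset V).powersetCard n <;>
            by_cases hB : T'.2 ∈ (univ : Finset U).powersetCard n <;>
            by_cases hA' : R ⊆ T'.1 <;> by_cases hB' : C ⊆ T'.2 <;>
            simp [hA, hB, hA', hB', div_eq_mul_inv, mul_assoc]
          simp_rw [h4]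
          rw [← sum_filter, filter_univ_mem, sum_product_right, sum_mul]
          refine sum_congr rfl fun B _ => ?_
          rw [sum_mul]
        rw [h3]
        have h5 := nb_sup hp hpc' hc (n := n) R C
        have h6 := (nb_ratio hp hpc' havg hV hU hn hsmall hRn hCn).1
        have hPP : 0 < PP p R C := prod_pos fun i _ => prod_pos fun j _ => hp0 i j
        have h7 : 0 ≤ S⁻¹ * (PP p R C)⁻¹ := by positivity
        refine (mul_le_mul_of_nonneg_right h5 h7).trans ?_
        calc PP p R C * (c ^ (R.card * (n - C.card) + (n - R.card) * C.card) *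
              SS p (n - R.card) (n - C.card)) * (S⁻¹ * (PP p R C)⁻¹)
            = c ^ (R.card * (n - C.card) + (n - R.card) * C.card) *
              (SS p (n - R.card) (n - C.card) * S⁻¹) := by
              field_simp
          _ ≤ c ^ (R.card * (n - C.card) + (n - R.card) * C.card) *
              (2 * ((n.descFactorial R.card : ℝ) * n.descFactorial C.card *
                ((2 : ℝ) ^ n / N) ^ R.card * ((2 : ℝ) ^ (n - R.card) / N) ^ C.card)) := by
              refine mul_le_mul_of_nonneg_left ?_ (by positivity)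
              rw [← div_eq_mul_inv, div_le_iff₀ hSpos]
              exact h6
          _ = _ := by
              unfold GG
              ring
      · simp
    refine (sum_le_sum h2).trans ?_
    have h3 : ∀ R ∈ T.1.powerset, ∑ C ∈ T.2.powerset,
        (if 1 ≤ R.card ∧ 1 ≤ C.card then GG c N n R.card C.card else 0) =
        (fun r : ℕ => ∑ s ∈ range (n + 1), (n.choose s : ℝ) *
          (if 1 ≤ r ∧ 1 ≤ s then GG c N n r s else 0)) R.card := by
      intro R _
      rw [sum_powerset_apply_card
        (fun s : ℕ => if 1 ≤ R.card ∧ 1 ≤ s then GG c N n R.card s else 0), hT.2.2]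
      simp only [nsmul_eq_mul]
    rw [sum_congr rfl h3, sum_powerset_apply_card
      (fun r : ℕ => ∑ s ∈ range (n + 1), (n.choose s : ℝ) *
          (if 1 ≤ r ∧ 1 ≤ s then GG c N n r s else 0)), hT.1.2]
    refine sum_le_sum fun r _ => ?_
    rw [nsmul_eq_mul, mul_sum]
    refine sum_le_sum fun s _ => ?_
    split_ifs
    · exact le_of_eq (by ring)
    · simp
  have hGnn : (0 : ℝ) ≤ ∑ r ∈ range (n + 1), ∑ s ∈ range (n + 1),
      if 1 ≤ r ∧ 1 ≤ s then (n.choose r : ℝ) * (n.choose s) * GG c N n r s else 0 := by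
    refine sum_nonneg fun r _ => sum_nonneg fun s _ => ?_
    split_ifs
    · unfold GG
      positivity
    · exact le_rfl
  calc ∑ T, w T * ∑ T', w T' *
          bd μ E (fun T : Finset V × Finset U => T.1 ×ˢ T.2) (fun _ => b) T T'
      ≤ ∑ T, w T * ∑ r ∈ range (n + 1), ∑ s ∈ range (n + 1),
        (if 1 ≤ r ∧ 1 ≤ s then (n.choose r : ℝ) * (n.choose s) * GG c N n r s else 0) := by
        refine sum_le_sum fun T _ => ?_
        by_cases hT : T ∈ Fm
        · exact mul_le_mul_of_nonneg_left (key T hT) (hw0 T)
        · have : w T = 0 := by simp only [hw, if_neg hT]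
          rw [this]
          simp
    _ = _ := by rw [← sum_mul, hw1, one_mul]

end Pool.Agent.Helper37.NoisyB
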