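import Mathlib
import Pool.Agent.Helper37.NoisyR.PartB2
import Pool.Agent.Helper37.NoisyB.Rect
import Pool.Agent.Helper37.NoisyB.Defs

/-!
# The error terms
-/

namespace Pool.Agent.Helper37.NoisyB

open Finset MeasureTheory ProbabilityTheory Filter Pool.Agent.Helper37.NoisyR

/-- The total error. -/
noncomputable def EN (c N : ℝ) (n : ℕ) : ℝ := ∑ r ∈ range (n + 1), ∑ s ∈ range (n + 1),
  if 1 ≤ r ∧ 1 ≤ s then (n.choose r : ℝ) * (n.choose s) * GG c N n r s else 0

theorem nb_expo {n r s : ℕ} (hr : r ≤ n) (hs : s ≤ n) :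
    r * (n - s) + (n - r) * s + 2 * (r * s) = n * (r + s) := by
  obtain ⟨i, rfl⟩ := Nat.exists_eq_add_of_le hr
  obtain ⟨j, hj⟩ := Nat.exists_eq_add_of_le hs
  have h1 : r + i - s = j := by omega
  have h2 : r + i - r = i := by omega
  rw [h1, h2]
  have h3 : r * (r + i) = r * (s + j) := by rw [hj]
  nlinarith

/-- Simplification of the main factor. -/
theorem nb_GG_eq {c N : ℝ} {n r s : ℕ} :
    GG c N n r s = 2 * ((n.descFactorial r : ℝ) * n.descFactorial s) * (1 / N) ^ (r + s) *
      ((2 * c) ^ (r * (n - s) + (n - r) * s) * 2 ^ (r * n + (n - r) * s -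
        (r * (n - s) + (n - r) * s))) := by
  have h1 : r * (n - s) + (n - r) * s ≤ r * n + (n - r) * s := by
    have : r * (n - s) ≤ r * n := Nat.mul_le_mul_left _ (Nat.sub_le _ _)
    omega
  have h2 : (2 : ℝ) ^ (r * n + (n - r) * s) = 2 ^ (r * (n - s) + (n - r) * s) *
      2 ^ (r * n + (n - r) * s - (r * (n - s) + (n - r) * s)) := by
    rw [← pow_add]
    congr 1
    omega
  unfold GG
  rw [div_pow, div_pow, ← pow_mul, ← pow_mul, one_div, inv_pow, mul_pow 2 c]
  have h3 : (2 : ℝ) ^ (n * r) * 2 ^ ((n - r) * s) = 2 ^ (r * n + (n - r) * s) := by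
    rw [← pow_add, mul_comm n r]
  rw [pow_add N r s, mul_inv]
  calc 2 * ((n.descFactorial r : ℝ) * n.descFactorial s * (2 ^ (n * r) / N ^ r) *
      (2 ^ ((n - r) * s) / N ^ s)) * c ^ (r * (n - s) + (n - r) * s)
      = 2 * ((n.descFactorial r : ℝ) * n.descFactorial s) * ((N ^ r)⁻¹ * (N ^ s)⁻¹) *
        ((2 ^ (n * r) * 2 ^ ((n - r) * s)) * c ^ (r * (n - s) + (n - r) * s)) := by
        rw [div_eq_mul_inv, div_eq_mul_inv]
        ring
    _ = _ := by
        rw [h3, h2]
        ring

/-- The main bound: `2 c ≤ β τ` and `2 ≤ β ^ 2`. -/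
theorem nb_GG_le {c N β τ : ℝ} (hc : 0 ≤ c) (hN : 0 < N) (hβ : 0 ≤ β) (hτ : 0 ≤ τ)
    (h2c : 2 * c ≤ β * τ) (h2 : 2 ≤ β ^ 2) {n r s : ℕ} (hr : r ≤ n) (hs : s ≤ n) :
    GG c N n r s ≤ 2 * ((n.descFactorial r : ℝ) * n.descFactorial s) * (β ^ n / N) ^ (r + s) *
      τ ^ (r * (n - s) + (n - r) * s) := by
  rw [nb_GG_eq]
  have h3 := nb_expo hr hs
  have h4 : r * n + (n - r) * s - (r * (n - s) + (n - r) * s) = r * s := by
    have : r * (n - s) + r * s = r * n := by
      rw [← Nat.mul_add]
      congr 1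
      omega
    omega
  rw [h4]
  have h5 : (2 * c) ^ (r * (n - s) + (n - r) * s) ≤ (β * τ) ^ (r * (n - s) + (n - r) * s) :=
    pow_le_pow_left₀ (by positivity) h2c _
  have h6 : (2 : ℝ) ^ (r * s) ≤ β ^ (2 * (r * s)) := by
    rw [pow_mul β 2]
    exact pow_le_pow_left₀ (by norm_num) h2 _
  calc 2 * ((n.descFactorial r : ℝ) * n.descFactorial s) * (1 / N) ^ (r + s) *
      ((2 * c) ^ (r * (n - s) + (n - r) * s) * 2 ^ (r * s))
      ≤ 2 * ((n.descFactorial r : ℝ) * n.descFactorial s) * (1 / N) ^ (r + s) *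
      ((β * τ) ^ (r * (n - s) + (n - r) * s) * β ^ (2 * (r * s))) := by
        refine mul_le_mul_of_nonneg_left ?_ (by positivity)
        exact mul_le_mul h5 h6 (by positivity) (by positivity)
    _ = 2 * ((n.descFactorial r : ℝ) * n.descFactorial s) * ((1 / N) ^ (r + s) *
      β ^ (r * (n - s) + (n - r) * s + 2 * (r * s))) * τ ^ (r * (n - s) + (n - r) * s) := by
        rw [mul_pow β τ, pow_add β]
        ring
    _ = _ := by
        rw [h3, pow_mul β n, ← mul_pow, one_div, ← div_eq_inv_mul]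

/-- Crude regime. -/
theorem nb_EN_B {c N β t : ℝ} (hc : 0 ≤ c) (hN : 0 < N) (hβ : 0 ≤ β) (ht : 0 ≤ t)
    (h2c : 2 * c ≤ β) (h2 : 2 ≤ β ^ 2) {n : ℕ} (hNt : β ^ n ≤ N * t ^ n)
    (hsm : (n : ℝ) ^ 2 * t ^ n ≤ 1) :
    EN c N n ≤ ((n : ℝ) + 1) ^ 2 * (2 * ((n : ℝ) ^ 2 * t ^ n)) := by
  have hx0 : 0 ≤ (n : ℝ) ^ 2 * t ^ n := by positivity
  have h1 : ∀ r ∈ range (n + 1), ∀ s ∈ range (n + 1),
      (if 1 ≤ r ∧ 1 ≤ s then (n.choose r : ℝ) * (n.choose s) * GG c N n r s else 0) ≤
      2 * ((n : ℝ) ^ 2 * t ^ n) := by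
    intro r hr s hs
    rw [mem_range] at hr hs
    split_ifs with h
    · have h3 := nb_GG_le hc hN hβ zero_le_one (by rwa [mul_one]) h2
        (show r ≤ n by omega) (show s ≤ n by omega)
      rw [one_pow, mul_one] at h3
      have h4 : (n.choose r : ℝ) ≤ (n : ℝ) ^ r := by exact_mod_cast Nat.choose_le_pow n r
      have h5 : (n.choose s : ℝ) ≤ (n : ℝ) ^ s := by exact_mod_cast Nat.choose_le_pow n s
      have h6 : (n.descFactorial r : ℝ) ≤ (n : ℝ) ^ r := by
        exact_mod_cast Nat.descFactorial_le_pow n r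
      have h7 : (n.descFactorial s : ℝ) ≤ (n : ℝ) ^ s := by
        exact_mod_cast Nat.descFactorial_le_pow n s
      have h8 : β ^ n / N ≤ t ^ n := by
        rw [div_le_iff₀ hN]
        linarith
      calc (n.choose r : ℝ) * (n.choose s) * GG c N n r s
          ≤ (n : ℝ) ^ r * (n : ℝ) ^ s * (2 * ((n : ℝ) ^ r * (n : ℝ) ^ s) *
            (t ^ n) ^ (r + s)) := by
            refine mul_le_mul (mul_le_mul h4 h5 (by positivity) (by positivity))
              (h3.trans ?_) ?_ (by positivity)
            · refine mul_le_mul ?_ (pow_le_pow_left₀ (by positivity) h8 _) (by positivity)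
                (by positivity)
              exact mul_le_mul_of_nonneg_left (mul_le_mul h6 h7 (by positivity) (by positivity))
                (by norm_num)
            · unfold GG
              positivity
        _ = 2 * ((n : ℝ) ^ 2 * t ^ n) ^ (r + s) := by
            rw [mul_pow ((n : ℝ) ^ 2) (t ^ n), ← pow_mul (n : ℝ) 2]
            have e1 : (n : ℝ) ^ (2 * (r + s)) = (n : ℝ) ^ r * (n : ℝ) ^ s *
                ((n : ℝ) ^ r * (n : ℝ) ^ s) := by ring
            rw [e1]
            ring
        _ ≤ 2 * ((n : ℝ) ^ 2 * t ^ n) := by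
            refine mul_le_mul_of_nonneg_left ?_ (by norm_num)
            exact pow_le_of_le_one hx0 hsm (by omega)
    · positivity
  unfold EN
  refine (sum_le_sum fun r hr => sum_le_sum fun s hs => h1 r hr s hs).trans (le_of_eq ?_)
  rw [sum_const, sum_const, card_range, smul_smul, nsmul_eq_mul]
  push_cast
  ring

/-- Sharp regime. -/
theorem nb_EN_A {c N t ε : ℝ} (hc : 0 ≤ c) (ht : 0 ≤ t) (hε : 0 < ε)
    (h2c : 2 * c ≤ Real.sqrt 2 * t ^ 2) {n : ℕ} (hn : 1 ≤ n)
    (hNt : (1 + ε) * (n / Real.exp 1) * Real.sqrt 2 ^ n ≤ N)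
    (hsm : Real.exp 1 * n ^ 2 * t ^ n ≤ 1) :
    EN c N n ≤ ((n : ℝ) + 1) ^ 2 * (2 * (Real.exp 1 * n * t ^ n) +
      2 * (Real.exp 1 * n) ^ 2 * ((1 + ε)⁻¹) ^ n) := by
  have hn' : (1 : ℝ) ≤ n := by exact_mod_cast hn
  have he : 1 ≤ Real.exp 1 := Real.one_le_exp zero_le_one
  have he0 := Real.exp_pos 1
  have hN : 0 < N := by
    refine lt_of_lt_of_le ?_ hNt
    positivity
  have hs2 : (0 : ℝ) ≤ Real.sqrt 2 := Real.sqrt_nonneg 2
  have hratio : Real.sqrt 2 ^ n / N ≤ (1 + ε)⁻¹ * (Real.exp 1 / n) := by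
    rw [div_le_iff₀ hN]
    calc Real.sqrt 2 ^ n = (1 + ε)⁻¹ * (Real.exp 1 / n) *
          ((1 + ε) * (n / Real.exp 1) * Real.sqrt 2 ^ n) := by
          field_simp
      _ ≤ _ := mul_le_mul_of_nonneg_left hNt (by positivity)
  -- the one-dimensional factors
  set u : ℕ → ℝ := fun r => (n.choose r : ℝ) * ((n.descFactorial r : ℝ) *
    ((1 + ε)⁻¹ * (Real.exp 1 / n)) ^ r) with hu
  have hu0 : ∀ r, 0 ≤ u r := fun r => by
    simp only [hu]
    positivity
  have hinv : (1 + ε)⁻¹ ≤ 1 := inv_le_one_of_one_le₀ (by linarith)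
  have hinv0 : 0 ≤ (1 + ε)⁻¹ := by positivity
  have hu1 : ∀ r, u r ≤ (Real.exp 1 * n) ^ r := by
    intro r
    have h4 : (n.choose r : ℝ) ≤ (n : ℝ) ^ r := by exact_mod_cast Nat.choose_le_pow n r
    have h6 : (n.descFactorial r : ℝ) ≤ (n : ℝ) ^ r := by
      exact_mod_cast Nat.descFactorial_le_pow n r
    have h7 : ((1 + ε)⁻¹ * (Real.exp 1 / n)) ^ r ≤ (1 * (Real.exp 1 / n)) ^ r :=
      pow_le_pow_left₀ (by positivity) (mul_le_mul_of_nonneg_right hinv (by positivity)) r
    calc u r ≤ (n : ℝ) ^ r * ((n : ℝ) ^ r * (1 * (Real.exp 1 / n)) ^ r) := by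
          simp only [hu]
          refine mul_le_mul h4 (mul_le_mul h6 h7 (by positivity) (by positivity))
            (by positivity) (by positivity)
      _ = _ := by
          rw [one_mul, ← mul_pow, ← mul_pow]
          congr 1
          field_simp
  have hu2 : ∀ r ≤ n, u r ≤ Real.exp 1 * n * (n : ℝ) ^ (2 * (n - r)) * ((1 + ε)⁻¹) ^ r := by
    intro r hr
    have h4 : (n.choose r : ℝ) ≤ (n : ℝ) ^ (n - r) := by
      rw [← Nat.choose_symm hr]
      exact_mod_cast Nat.choose_le_pow n (n - r)
    have h6 : (n.descFactorial r : ℝ) ≤ Real.exp 1 * n * (n / Real.exp 1) ^ n := by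
      refine le_trans ?_ (nr_fact_le hn)
      have h7 := Nat.factorial_mul_descFactorial hr
      have h8 : n.descFactorial r ≤ n.factorial := by
        rw [← h7]
        exact Nat.le_mul_of_pos_left _ (Nat.factorial_pos _)
      exact_mod_cast h8
    calc u r ≤ (n : ℝ) ^ (n - r) * ((Real.exp 1 * n * (n / Real.exp 1) ^ n) *
          ((1 + ε)⁻¹ * (Real.exp 1 / n)) ^ r) := by
          simp only [hu]
          exact mul_le_mul h4 (mul_le_mul_of_nonneg_right h6 (by positivity))
            (by positivity) (by positivity)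
      _ = (n : ℝ) ^ (n - r) * (Real.exp 1 * n * ((n / Real.exp 1) ^ (n - r))) *
          ((1 + ε)⁻¹) ^ r := by
          have h9 : ((n : ℝ) / Real.exp 1) ^ n =
              (n / Real.exp 1) ^ (n - r) * (n / Real.exp 1) ^ r := by
            rw [← pow_add]
            congr 1
            omega
          have h10 : ((n : ℝ) / Real.exp 1) ^ r * (Real.exp 1 / n) ^ r = 1 := by
            rw [← mul_pow]
            have : (n : ℝ) / Real.exp 1 * (Real.exp 1 / n) = 1 := by field_simp
            rw [this, one_pow]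
          rw [h9, mul_pow]
          calc (n : ℝ) ^ (n - r) * (Real.exp 1 * n * ((n / Real.exp 1) ^ (n - r) *
              (n / Real.exp 1) ^ r) * (((1 + ε)⁻¹) ^ r * (Real.exp 1 / n) ^ r))
              = (n : ℝ) ^ (n - r) * (Real.exp 1 * n * ((n / Real.exp 1) ^ (n - r))) *
                ((1 + ε)⁻¹) ^ r * ((n / Real.exp 1) ^ r * (Real.exp 1 / n) ^ r) := by ring
            _ = _ := by rw [h10, mul_one]
      _ ≤ (n : ℝ) ^ (n - r) * (Real.exp 1 * n * ((n : ℝ) ^ (n - r))) * ((1 + ε)⁻¹) ^ r := by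
          refine mul_le_mul_of_nonneg_right ?_ (by positivity)
          refine mul_le_mul_of_nonneg_left ?_ (by positivity)
          refine mul_le_mul_of_nonneg_left ?_ (by positivity)
          refine pow_le_pow_left₀ (by positivity) ?_ _
          exact div_le_self (by positivity) he
      _ = _ := by
          rw [two_mul, pow_add]
          ring
  have hbase0 : 0 ≤ Real.exp 1 * n * t ^ n := by positivity
  have hbase1 : Real.exp 1 * n * t ^ n ≤ 1 := by
    refine le_trans ?_ hsm
    refine mul_le_mul_of_nonneg_right ?_ (by positivity)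
    refine mul_le_mul_of_nonneg_left ?_ he0.le
    nlinarith
  have hbase2 : (n : ℝ) ^ 2 * t ^ n ≤ 1 := by
    refine le_trans ?_ hsm
    rw [mul_assoc]
    exact le_mul_of_one_le_left (by positivity) he
  have ht1 : t ≤ 1 := by
    by_contra hcon
    push Not at hcon
    have h1 : 1 < t ^ n := one_lt_pow₀ hcon (by omega)
    have h2 : (1 : ℝ) ≤ (n : ℝ) ^ 2 := one_le_pow₀ hn'
    nlinarith
  have h1 : ∀ r ∈ range (n + 1), ∀ s ∈ range (n + 1),
      (if 1 ≤ r ∧ 1 ≤ s then (n.choose r : ℝ) * (n.choose s) * GG c N n r s else 0) ≤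
      2 * (Real.exp 1 * n * t ^ n) + 2 * (Real.exp 1 * n) ^ 2 * ((1 + ε)⁻¹) ^ n := by
    intro r hr s hs
    rw [mem_range] at hr hs
    have hrn : r ≤ n := by omega
    have hsn : s ≤ n := by omega
    split_ifs with h
    · set f : ℕ := r * (n - s) + (n - r) * s with hf
      have h3 := nb_GG_le hc hN hs2 (sq_nonneg t) h2c
        (by rw [Real.sq_sqrt (by norm_num)]) hrn hsn
      have h5 : (n.choose r : ℝ) * (n.choose s) * GG c N n r s ≤
          2 * (u r * u s) * (t ^ 2) ^ f := by
        calc (n.choose r : ℝ) * (n.choose s) * GG c N n r s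
            ≤ (n.choose r : ℝ) * (n.choose s) *
              (2 * ((n.descFactorial r : ℝ) * n.descFactorial s) *
                ((1 + ε)⁻¹ * (Real.exp 1 / n)) ^ (r + s) * (t ^ 2) ^ f) := by
              refine mul_le_mul_of_nonneg_left (h3.trans ?_) (by positivity)
              refine mul_le_mul_of_nonneg_right ?_ (by positivity)
              refine mul_le_mul_of_nonneg_left ?_ (by positivity)
              exact pow_le_pow_left₀ (by positivity) hratio _
          _ = _ := by
              simp only [hu]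
              rw [pow_add _ r s]
              ring
      refine h5.trans ?_
      rw [← pow_mul]
      by_cases hcase : r + s ≤ n
      · -- small
        refine le_trans ?_ (le_add_of_nonneg_right (by positivity))
        have h6 : n * (r + s) ≤ 2 * f := by
          have h7 := nb_expo hrn hsn
          have h8 : 4 * (r * s) ≤ (r + s) * (r + s) := by nlinarith [sq_nonneg ((r : ℤ) - s)]
          have h9 : (r + s) * (r + s) ≤ n * (r + s) := Nat.mul_le_mul_right _ hcase
          rw [← hf] at h7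
          omega
        calc 2 * (u r * u s) * t ^ (2 * f)
            ≤ 2 * ((Real.exp 1 * n) ^ r * (Real.exp 1 * n) ^ s) * t ^ (n * (r + s)) := by
              refine mul_le_mul ?_ (pow_le_pow_of_le_one ht ht1 h6) (by positivity)
                (by positivity)
              refine mul_le_mul_of_nonneg_left ?_ (by norm_num)
              exact mul_le_mul (hu1 r) (hu1 s) (hu0 s) (by positivity)
          _ = 2 * (Real.exp 1 * n * t ^ n) ^ (r + s) := by
              rw [mul_pow (Real.exp 1 * n) (t ^ n), pow_mul t n, pow_add (Real.exp 1 * n)]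
              ring
          _ ≤ _ := by
              refine mul_le_mul_of_nonneg_left ?_ (by norm_num)
              exact pow_le_of_le_one hbase0 hbase1 (by omega)
      · -- large
        push Not at hcase
        refine le_trans ?_ (le_add_of_nonneg_left (by positivity))
        obtain ⟨i, hi⟩ := Nat.exists_eq_add_of_le hrn
        obtain ⟨j, hj⟩ := Nat.exists_eq_add_of_le hsn
        have hi' : n - r = i := by omega
        have hj' : n - s = j := by omega
        have h6 : n * (i + j) ≤ 2 * f := by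
          have h7 : f + 2 * (i * j) = n * (i + j) := by
            rw [hf, hi', hj']
            have e1 : n * (i + j) = n * i + n * j := by ring
            have e2 : n * i = (s + j) * i := by rw [← hj]
            have e3 : n * j = (r + i) * j := by rw [← hi]
            rw [e1, e2, e3]
            ring
          have h8 : 4 * (i * j) ≤ (i + j) * (i + j) := by nlinarith [sq_nonneg ((i : ℤ) - j)]
          have h9 : (i + j) * (i + j) ≤ n * (i + j) := Nat.mul_le_mul_right _ (by omega)
          omega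
        have h7 := hu2 r hrn
        have h8 := hu2 s hsn
        rw [hi'] at h7
        rw [hj'] at h8
        calc 2 * (u r * u s) * t ^ (2 * f)
            ≤ 2 * ((Real.exp 1 * n * (n : ℝ) ^ (2 * i) * ((1 + ε)⁻¹) ^ r) *
              (Real.exp 1 * n * (n : ℝ) ^ (2 * j) * ((1 + ε)⁻¹) ^ s)) * t ^ (n * (i + j)) := by
              refine mul_le_mul ?_ (pow_le_pow_of_le_one ht ht1 h6) (by positivity)
                (by positivity)
              refine mul_le_mul_of_nonneg_left ?_ (by norm_num)
              exact mul_le_mul h7 h8 (hu0 s) (by positivity)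
          _ = 2 * (Real.exp 1 * n) ^ 2 * ((1 + ε)⁻¹) ^ (r + s) *
              ((n : ℝ) ^ 2 * t ^ n) ^ (i + j) := by
              rw [mul_pow ((n : ℝ) ^ 2) (t ^ n), ← pow_mul (n : ℝ) 2, pow_mul t n, mul_add,
                pow_add (n : ℝ), pow_add ((1 + ε)⁻¹) r s]
              ring
          _ ≤ 2 * (Real.exp 1 * n) ^ 2 * ((1 + ε)⁻¹) ^ n * 1 := by
              refine mul_le_mul ?_ (pow_le_one₀ (by positivity) hbase2) (by positivity)
                (by positivity)
              refine mul_le_mul_of_nonneg_left ?_ (by positivity)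
              exact pow_le_pow_of_le_one hinv0 hinv (by omega)
          _ = _ := mul_one _
    · positivity
  unfold EN
  refine (sum_le_sum fun r hr => sum_le_sum fun s hs => h1 r hr s hs).trans (le_of_eq ?_)
  rw [sum_const, sum_const, card_range, smul_smul, nsmul_eq_mul]
  push_cast
  ring

end Pool.Agent.Helper37.NoisyB
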