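import Mathlib
import Pool.Agent.Helper37.NoisyR.Lower
import Pool.Agent.Helper37.NoisyB.Num

/-!
# Bipartite Ramsey numbers with noise
-/

namespace Pool.Agent.Helper37.NoisyB

open Finset MeasureTheory ProbabilityTheory Filter Pool.Agent.Helper37.NoisyR

/-- Entry events. -/
def EM {N : ℕ} {Ω : Type} (M : Ω → Fin N → Fin N → Bool) (e : Fin N × Fin N) : Set Ω :=
  {ω | M ω e.1 e.2 = true}

theorem nb_core {q : ℝ} (hq0 : 0 < q) (hq1 : q ≤ 1 / 2) {N n : ℕ} (hn : 1 ≤ n)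
    (hsmall : 2 * ((n : ℝ) ^ 2 * (2 * (1 - q)) ^ n) ≤ N) {Ω : Type} [MeasurableSpace Ω]
    {μ : Measure Ω} [IsProbabilityMeasure μ] {M : Ω → Fin N → Fin N → Bool}
    (h : IsNoisyMatrix q μ M) : 1 - EN (1 - q) N n ≤ μ.real {ω | HasRect (M ω) n} := by
  classical
  have hn' : (1 : ℝ) ≤ n := by exact_mod_cast hn
  have hNpos : (0 : ℝ) < N := by
    refine lt_of_lt_of_le ?_ hsmall
    have : 0 < 2 * (1 - q) := by linarith
    positivity
  have hN0 : 0 < N := by exact_mod_cast hNpos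
  have : Nonempty (Fin N) := ⟨⟨0, hN0⟩⟩
  have hmeas : ∀ e, MeasurableSet (EM M e) := fun e => h.meas e.1 e.2
  have hfalse : ∀ e, pr μ (EM M) false e = 1 - pr μ (EM M) true e := by
    intro e
    unfold pr ev
    simp only [Bool.false_eq_true, if_false, if_true]
    exact probReal_compl_eq_one_sub (hmeas e)
  have hlow : ∀ b e, q ≤ pr μ (EM M) b e ∧ pr μ (EM M) b e ≤ 1 - q := by
    intro b e
    have h1 : pr μ (EM M) true e = μ.real {ω | M ω e.1 e.2 = true} := by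
      unfold pr ev EM
      simp
    have h2 := h.lower e.1 e.2
    have h3 := h.upper e.1 e.2
    cases b
    · rw [hfalse, h1]
      constructor <;> linarith
    · rw [h1]
      exact ⟨h2, h3⟩
  have hb : ∃ b, (Fintype.card (Fin N) : ℝ) * Fintype.card (Fin N) / 2 ≤
      ∑ i, ∑ j, pr μ (EM M) b (i, j) := by
    by_contra hcon
    push Not at hcon
    have h1 := hcon true
    have h2 := hcon false
    have h3 : ∑ i, ∑ j, pr μ (EM M) true (i, j) + ∑ i, ∑ j, pr μ (EM M) false (i, j) =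
        (Fintype.card (Fin N) : ℝ) * Fintype.card (Fin N) := by
      rw [← sum_add_distrib]
      simp_rw [← sum_add_distrib, hfalse]
      simp
    linarith
  obtain ⟨b, hb⟩ := hb
  set H : Set Ω := {ω | HasRect (M ω) n} with hH
  have key : μ.real Hᶜ ≤ EN (1 - q) N n := by
    refine nb_rect (E := EM M) hmeas h.indep b (fun e => hq0.trans_le (hlow b e).1)
      (fun e => (hlow b e).2) hb (by rw [Fintype.card_fin]) (by rw [Fintype.card_fin]) hn hsmall
      _ ?_
    intro ω hω A B hA hB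
    by_contra hcon
    push Not at hcon
    refine hω ⟨A, B, hA, hB, b, fun i hi j hj => ?_⟩
    have h1 := hcon (i, j) (mem_product.2 ⟨hi, hj⟩)
    unfold ev EM at h1
    cases b
    · simpa using h1
    · simpa using h1
  have h1 : (1 : ℝ) ≤ μ.real H + μ.real Hᶜ := by
    have h2 := measureReal_union_le (μ := μ) H Hᶜ
    rw [Set.union_compl_self, probReal_univ] at h2
    exact h2
  linarith

/-- **Sharp regime.** -/
theorem nb_partA {q0 ε : ℝ} (hq0 : 1 - 1 / Real.sqrt 2 < q0) (hε : 0 < ε) :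
    ∀ᶠ n : ℕ in atTop, ∀ q : ℝ, q0 ≤ q → q ≤ 1 / 2 → ∀ N : ℕ,
      (1 + ε) * (n / Real.exp 1) * Real.sqrt 2 ^ n ≤ N → HomRect q ε N n := by
  by_cases hq2 : q0 ≤ 1 / 2
  swap
  · refine Eventually.of_forall fun n q h1 h2 => ?_
    exact absurd (h1.trans h2) hq2
  have hs2 : 0 < Real.sqrt 2 := Real.sqrt_pos.2 (by norm_num)
  have hs2' : Real.sqrt 2 * Real.sqrt 2 = 2 := Real.mul_self_sqrt (by norm_num)
  set θ : ℝ := Real.sqrt 2 * (1 - q0) with hθ
  have hθ0 : 0 < θ := mul_pos hs2 (by linarith)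
  have hθ1 : θ < 1 := by
    have h1 : 1 - q0 < 1 / Real.sqrt 2 := by linarith
    have h2 := mul_lt_mul_of_pos_left h1 hs2
    rwa [mul_one_div_cancel hs2.ne'] at h2
  set t : ℝ := Real.sqrt θ with ht
  have ht0 : 0 < t := Real.sqrt_pos.2 hθ0
  have ht1 : t < 1 := by
    rw [ht, Real.sqrt_lt' one_pos]
    linarith
  have ht2 : t ^ 2 = θ := Real.sq_sqrt hθ0.le
  have he := Real.exp_pos 1
  have hinv0 : 0 ≤ (1 + ε)⁻¹ := by positivity
  have hinv1 : (1 + ε)⁻¹ < 1 := inv_lt_one_of_one_lt₀ (by linarith)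
  have E1 : ∀ᶠ n : ℕ in atTop, (n : ℝ) ^ 2 * t ^ n ≤ 1 / (2 * Real.exp 1) :=
    (nr_lim ht0.le ht1 2).eventually_le_const (by positivity)
  have E2 : ∀ᶠ n : ℕ in atTop, ((n : ℝ) + 1) ^ 2 * (2 * (Real.exp 1 * n * t ^ n) +
      2 * (Real.exp 1 * n) ^ 2 * ((1 + ε)⁻¹) ^ n) ≤ ε := by
    have h1 := (nr_lim ht0.le ht1 3).const_mul (2 * Real.exp 1)
    have h2 := (nr_lim ht0.le ht1 2).const_mul (4 * Real.exp 1)
    have h3 := (nr_lim ht0.le ht1 1).const_mul (2 * Real.exp 1)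
    have h4 := (nr_lim hinv0 hinv1 4).const_mul (2 * Real.exp 1 ^ 2)
    have h5 := (nr_lim hinv0 hinv1 3).const_mul (4 * Real.exp 1 ^ 2)
    have h6 := (nr_lim hinv0 hinv1 2).const_mul (2 * Real.exp 1 ^ 2)
    have h7 := ((h1.add h2).add h3).add ((h4.add h5).add h6)
    simp only [mul_zero, add_zero] at h7
    refine (h7.congr fun n => ?_).eventually_le_const hε
    ring
  filter_upwards [E1, E2, eventually_ge_atTop 1] with n E1 E2 hn q hq hq1 N hN
  intro Ω _ μ _ M h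
  have hn' : (1 : ℝ) ≤ n := by exact_mod_cast hn
  have hq00 : 0 < q := by
    have h1 : 1 / Real.sqrt 2 < 1 := by
      rw [div_lt_one hs2]
      have : (1 : ℝ) < 2 := by norm_num
      exact Real.lt_sqrt_of_sq_lt (by norm_num)
    linarith
  have h2c : 2 * (1 - q) ≤ Real.sqrt 2 * t ^ 2 := by
    rw [ht2, hθ, ← mul_assoc, hs2']
    linarith
  have hsm : Real.exp 1 * n ^ 2 * t ^ n ≤ 1 := by
    have h1 := mul_le_mul_of_nonneg_left E1 he.le
    have h2 : Real.exp 1 * (1 / (2 * Real.exp 1)) = 1 / 2 := by field_simp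
    rw [h2] at h1
    linarith
  have hsmall : 2 * ((n : ℝ) ^ 2 * (2 * (1 - q)) ^ n) ≤ N := by
    refine le_trans ?_ hN
    have h1 : (2 * (1 - q)) ^ n ≤ (Real.sqrt 2 * t ^ 2) ^ n :=
      pow_le_pow_left₀ (by linarith) h2c n
    have h2 : (Real.sqrt 2 * t ^ 2) ^ n = Real.sqrt 2 ^ n * (t ^ n) ^ 2 := by
      rw [mul_pow, ← pow_mul, ← pow_mul, mul_comm 2 n]
    have h3 : t ^ n ≤ 1 := pow_le_one₀ ht0.le ht1.le
    have h4 : (t ^ n) ^ 2 ≤ t ^ n := by
      rw [sq]
      exact mul_le_of_le_one_left (by positivity) h3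
    calc 2 * ((n : ℝ) ^ 2 * (2 * (1 - q)) ^ n)
        ≤ 2 * ((n : ℝ) ^ 2 * (Real.sqrt 2 ^ n * t ^ n)) := by
          refine mul_le_mul_of_nonneg_left (mul_le_mul_of_nonneg_left ?_ (by positivity))
            (by norm_num)
          rw [h2] at h1
          exact h1.trans (mul_le_mul_of_nonneg_left h4 (by positivity))
      _ = 2 * ((n : ℝ) ^ 2 * t ^ n) * Real.sqrt 2 ^ n := by ring
      _ ≤ 2 * (1 / (2 * Real.exp 1)) * Real.sqrt 2 ^ n := by
          refine mul_le_mul_of_nonneg_right (mul_le_mul_of_nonneg_left E1 (by norm_num))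
            (by positivity)
      _ = 1 * (1 / Real.exp 1) * Real.sqrt 2 ^ n := by field_simp
      _ ≤ (1 + ε) * (n / Real.exp 1) * Real.sqrt 2 ^ n := by
          refine mul_le_mul_of_nonneg_right ?_ (by positivity)
          exact mul_le_mul (by linarith) (div_le_div_of_nonneg_right hn' he.le)
            (by positivity) (by positivity)
  have key := nb_core hq00 hq1 hn hsmall h
  have hEN := nb_EN_A (by linarith) ht0.le hε h2c hn hN hsm
  linarith

/-- **All noise rates.** -/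
theorem nb_partB {q ε : ℝ} (hq0 : 0 < q) (hq1 : q ≤ 1 / 2) (hε : 0 < ε) :
    ∀ᶠ n : ℕ in atTop, ∀ N : ℕ,
      (max (Real.sqrt 2) (2 * (1 - q)) + ε) ^ n ≤ N → HomRect q ε N n := by
  set β : ℝ := max (Real.sqrt 2) (2 * (1 - q)) with hβ
  have hs2 : 0 < Real.sqrt 2 := Real.sqrt_pos.2 (by norm_num)
  have hβ0 : 0 < β := lt_of_lt_of_le hs2 (le_max_left _ _)
  have h2c : 2 * (1 - q) ≤ β := le_max_right _ _
  have h2 : 2 ≤ β ^ 2 := by
    have h1 : Real.sqrt 2 ^ 2 = 2 := Real.sq_sqrt (by norm_num)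
    rw [← h1]
    exact pow_le_pow_left₀ hs2.le (le_max_left _ _) 2
  set t : ℝ := β / (β + ε) with ht
  have ht0 : 0 < t := by positivity
  have ht1 : t < 1 := by
    rw [ht, div_lt_one (by positivity)]
    linarith
  have E1 : ∀ᶠ n : ℕ in atTop, (n : ℝ) ^ 2 * t ^ n ≤ 1 / 2 :=
    (nr_lim ht0.le ht1 2).eventually_le_const (by positivity)
  have E2 : ∀ᶠ n : ℕ in atTop, ((n : ℝ) + 1) ^ 2 * (2 * ((n : ℝ) ^ 2 * t ^ n)) ≤ ε := by
    have h1 := (nr_lim ht0.le ht1 4).const_mul 2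
    have h2 := (nr_lim ht0.le ht1 3).const_mul 4
    have h3 := (nr_lim ht0.le ht1 2).const_mul 2
    have h7 := (h1.add h2).add h3
    simp only [mul_zero, add_zero] at h7
    refine (h7.congr fun n => ?_).eventually_le_const hε
    ring
  filter_upwards [E1, E2, eventually_ge_atTop 1] with n E1 E2 hn N hN
  intro Ω _ μ _ M h
  have hNpos : (0 : ℝ) < N := lt_of_lt_of_le (by positivity) hN
  have hNt : β ^ n ≤ N * t ^ n := by
    calc β ^ n = (β + ε) ^ n * t ^ n := by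
          rw [← mul_pow, ht]
          congr 1
          field_simp
      _ ≤ _ := mul_le_mul_of_nonneg_right hN (by positivity)
  have hsmall : 2 * ((n : ℝ) ^ 2 * (2 * (1 - q)) ^ n) ≤ N := by
    have h1 : (2 * (1 - q)) ^ n ≤ β ^ n := pow_le_pow_left₀ (by linarith) h2c n
    calc 2 * ((n : ℝ) ^ 2 * (2 * (1 - q)) ^ n) ≤ 2 * ((n : ℝ) ^ 2 * (N * t ^ n)) := by
          refine mul_le_mul_of_nonneg_left (mul_le_mul_of_nonneg_left (h1.trans hNt)
            (by positivity)) (by norm_num)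
      _ = 2 * ((n : ℝ) ^ 2 * t ^ n) * N := by ring
      _ ≤ 1 * N := mul_le_mul_of_nonneg_right (by linarith) hNpos.le
      _ = N := one_mul _
  have key := nb_core hq0 hq1 hn hsmall h
  have hEN := nb_EN_B (c := 1 - q) (by linarith) hNpos hβ0.le ht0.le h2c h2 hNt (by linarith)
  linarith

end Pool.Agent.Helper37.NoisyB
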