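import Mathlib
import Pool.Agent.Helper37.NoisyB.Main

/-!
# Lower bound, limit, and noise rate zero
-/

namespace Pool.Agent.Helper37.NoisyB

open Finset MeasureTheory ProbabilityTheory Filter Pool.Agent.Helper37.NoisyR

/-- The law of the uniform random matrix. -/
noncomputable def muM (N : ℕ) : Measure (Fin N × Fin N → Bool) := Measure.pi fun _ => coin

theorem nb_muM_prob (N : ℕ) : IsProbabilityMeasure (muM N) := by
  have := nr_coin_prob
  unfold muM
  infer_instance

theorem nb_muM_event {N : ℕ} (e : Fin N × Fin N) :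
    (muM N) {ω | ω e = true} = ENNReal.ofReal (1 / 2) := by
  have := nr_coin_prob
  have h1 : {ω : Fin N × Fin N → Bool | ω e = true} = (fun ω => ω e) ⁻¹' {true} := rfl
  have h2 : Measure.map (fun ω : Fin N × Fin N → Bool => ω e) (muM N) = coin :=
    (measurePreserving_eval (fun _ : Fin N × Fin N => coin) e).map_eq
  rw [h1, ← Measure.map_apply (measurable_pi_apply e) (MeasurableSet.singleton true), h2,
    nr_coin_true]

theorem nb_muM_indep (N : ℕ) :
    iIndepSet (fun e : Fin N × Fin N => {ω | ω e = true}) (muM N) := by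
  have := nr_coin_prob
  have h1 : iIndepFun (fun (e : Fin N × Fin N) (ω : Fin N × Fin N → Bool) => ω e) (muM N) := by
    have := iIndepFun_pi (μ := fun _ : Fin N × Fin N => coin) (X := fun _ b => b)
      (fun _ => aemeasurable_id)
    exact this
  rw [iIndepSet_iff_meas_biInter]
  · intro s
    have h2 := h1.measure_inter_preimage_eq_mul s (sets := fun _ => {true})
      (fun _ _ => MeasurableSet.singleton true)
    exact h2
  · intro e
    exact MeasurableSet.of_discrete

theorem nb_unif_noisy {N : ℕ} {q : ℝ} (hq : q ≤ 1 / 2) :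
    IsNoisyMatrix q (muM N) (fun ω i j => ω (i, j)) := by
  have hval : ∀ i j : Fin N, (muM N).real {ω | ω (i, j) = true} = 1 / 2 := by
    intro i j
    rw [Measure.real, nb_muM_event, ENNReal.toReal_ofReal (by norm_num)]
  refine ⟨fun i j => MeasurableSet.of_discrete, nb_muM_indep N, fun i j => ?_, fun i j => ?_⟩
  · rw [hval i j]
    exact hq
  · rw [hval i j]
    linarith

/-- First moment bound. -/
theorem nb_first_moment (N n : ℕ) :
    (muM N).real {ω | HasRect (fun i j => ω (i, j)) n} ≤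
      2 * ((N : ℝ) * (Real.exp 1 / n) / Real.sqrt 2 ^ n) ^ (2 * n) := by
  classical
  have := nb_muM_prob N
  have h := nb_unif_noisy (N := N) (q := 1 / 2) le_rfl
  have hpr : ∀ (b : Bool) (e : Fin N × Fin N),
      pr (muM N) (EM (fun (ω : Fin N × Fin N → Bool) i j => ω (i, j))) b e = 1 / 2 := by
    intro b e
    have h1 : (muM N).real {ω | ω e = true} = 1 / 2 := by
      rw [Measure.real, nb_muM_event, ENNReal.toReal_ofReal (by norm_num)]
    have hE : EM (fun (ω : Fin N × Fin N → Bool) i j => ω (i, j)) e = {ω | ω e = true} := rfl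
    unfold pr ev
    rw [hE]
    cases b
    · simp only [Bool.false_eq_true, if_false]
      rw [probReal_compl_eq_one_sub MeasurableSet.of_discrete, h1]
      norm_num
    · simpa using h1
  have hE : ∀ (b : Bool) (A B : Finset (Fin N)), A.card = n → B.card = n →
      (muM N).real (⋂ e ∈ A ×ˢ B,
        ev (EM (fun (ω : Fin N × Fin N → Bool) i j => ω (i, j))) b e) =
        (1 / 2) ^ (n * n) := by
    intro b A B hA hB
    have h0 := nr_indep h.indep (fun _ => b) (A ×ˢ B)
    refine h0.trans ?_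
    have h00 : ∏ e ∈ A ×ˢ B, pr (muM N)
        (EM (fun (ω : Fin N × Fin N → Bool) i j => ω (i, j))) b e = (1 / 2) ^ (n * n) := by
      rw [prod_congr rfl (fun e _ => hpr b e), prod_const, card_product, hA, hB]
    exact h00
  have hsub : {ω : Fin N × Fin N → Bool | HasRect (fun i j => ω (i, j)) n} ⊆
      ⋃ T ∈ ((univ : Finset (Fin N)).powersetCard n) ×ˢ ((univ : Finset (Fin N)).powersetCard n),
        ((⋂ e ∈ T.1 ×ˢ T.2, ev (EM (fun (ω : Fin N × Fin N → Bool) i j => ω (i, j))) true e) ∪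
        (⋂ e ∈ T.1 ×ˢ T.2, ev (EM (fun (ω : Fin N × Fin N → Bool) i j => ω (i, j))) false e)) := by
    rintro ω ⟨A, B, hA, hB, b, hb⟩
    simp only [Set.mem_iUnion]
    refine ⟨(A, B), mem_product.2 ⟨mem_powersetCard.2 ⟨subset_univ _, hA⟩,
      mem_powersetCard.2 ⟨subset_univ _, hB⟩⟩, ?_⟩
    cases b
    · refine Or.inr (Set.mem_iInter₂.2 fun e he => ?_)
      have h1 : ω (e.1, e.2) = false := hb e.1 (mem_product.1 he).1 e.2 (mem_product.1 he).2
      intro h2
      have h3 : ω (e.1, e.2) = true := h2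
      rw [h1] at h3
      exact Bool.false_ne_true h3
    · refine Or.inl (Set.mem_iInter₂.2 fun e he => ?_)
      exact hb e.1 (mem_product.1 he).1 e.2 (mem_product.1 he).2
  have h1 := measureReal_mono (μ := muM N) hsub (measure_ne_top _ _)
  have h2 := measureReal_biUnion_finset_le (μ := muM N)
    (((univ : Finset (Fin N)).powersetCard n) ×ˢ ((univ : Finset (Fin N)).powersetCard n))
    (fun T => (⋂ e ∈ T.1 ×ˢ T.2,
        ev (EM (fun (ω : Fin N × Fin N → Bool) i j => ω (i, j))) true e) ∪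
        (⋂ e ∈ T.1 ×ˢ T.2, ev (EM (fun (ω : Fin N × Fin N → Bool) i j => ω (i, j))) false e))
  have h3 : ∑ T ∈ ((univ : Finset (Fin N)).powersetCard n) ×ˢ
        ((univ : Finset (Fin N)).powersetCard n),
      (muM N).real ((⋂ e ∈ T.1 ×ˢ T.2,
        ev (EM (fun (ω : Fin N × Fin N → Bool) i j => ω (i, j))) true e) ∪
        (⋂ e ∈ T.1 ×ˢ T.2, ev (EM (fun (ω : Fin N × Fin N → Bool) i j => ω (i, j))) false e)) ≤
      ∑ T ∈ ((univ : Finset (Fin N)).powersetCard n) ×ˢ
        ((univ : Finset (Fin N)).powersetCard n), (2 * (1 / 2 : ℝ) ^ (n * n)) := by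
    refine sum_le_sum fun T hT => ?_
    rw [mem_product, mem_powersetCard, mem_powersetCard] at hT
    refine (measureReal_union_le _ _).trans ?_
    rw [hE true T.1 T.2 hT.1.2 hT.2.2, hE false T.1 T.2 hT.1.2 hT.2.2]
    linarith
  rw [sum_const, card_product, card_powersetCard, card_univ, Fintype.card_fin,
    nsmul_eq_mul] at h3
  refine (h1.trans (h2.trans h3)).trans ?_
  have h4 : (N.choose n : ℝ) ≤ (N * (Real.exp 1 / n)) ^ n := by
    have h5 : (N.choose n : ℝ) ≤ (N : ℝ) ^ n / n.factorial := Nat.choose_le_pow_div n N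
    refine h5.trans ?_
    rcases Nat.eq_zero_or_pos n with rfl | hk
    · simp
    have hk' : (0 : ℝ) < n := by exact_mod_cast hk
    have h6 : ((n : ℝ) / Real.exp 1) ^ n ≤ n.factorial := by
      have h7 := Stirling.le_factorial_stirling n
      refine le_trans ?_ h7
      have h8 : (1 : ℝ) ≤ Real.sqrt (2 * Real.pi * n) := by
        rw [Real.one_le_sqrt]
        have h9 := Real.pi_gt_three
        have h10 : (1 : ℝ) ≤ n := by exact_mod_cast hk
        nlinarith
      have h9 : 0 ≤ ((n : ℝ) / Real.exp 1) ^ n := by positivity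
      nlinarith
    rw [div_le_iff₀ (by positivity)]
    calc (N : ℝ) ^ n = (N * (Real.exp 1 / n)) ^ n * ((n : ℝ) / Real.exp 1) ^ n := by
          rw [← mul_pow]
          congr 1
          field_simp
      _ ≤ _ := mul_le_mul_of_nonneg_left h6 (by positivity)
  have h5 : (1 / 2 : ℝ) ^ (n * n) = ((Real.sqrt 2 ^ n)⁻¹) ^ (2 * n) := by
    rw [inv_pow, ← pow_mul, one_div, inv_pow]
    congr 1
    have : Real.sqrt 2 ^ (n * (2 * n)) = (Real.sqrt 2 ^ 2) ^ (n * n) := by
      rw [← pow_mul]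
      congr 1
      ring
    rw [this, Real.sq_sqrt (by norm_num)]
  push_cast
  calc (N.choose n : ℝ) * (N.choose n) * (2 * (1 / 2) ^ (n * n))
      ≤ (N * (Real.exp 1 / n)) ^ n * (N * (Real.exp 1 / n)) ^ n * (2 * (1 / 2) ^ (n * n)) := by
        refine mul_le_mul_of_nonneg_right ?_ (by positivity)
        exact mul_le_mul h4 h4 (by positivity) (by positivity)
    _ = _ := by
        have h6 : ((N : ℝ) * (Real.exp 1 / n)) ^ (2 * n) =
            ((N : ℝ) * (Real.exp 1 / n)) ^ n * ((N : ℝ) * (Real.exp 1 / n)) ^ n := by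
          rw [← pow_add]
          congr 1
          ring
        rw [h5, div_eq_mul_inv ((N : ℝ) * (Real.exp 1 / n)) (Real.sqrt 2 ^ n), mul_pow _
          (Real.sqrt 2 ^ n)⁻¹, h6]
        ring

/-- Below the first moment threshold. -/
theorem nb_lower {ε : ℝ} (hε : 0 < ε) (hε1 : ε < 1) :
    ∀ᶠ n : ℕ in atTop, ∀ q : ℝ, q ≤ 1 / 2 → ∀ N : ℕ,
      (N : ℝ) ≤ (1 - ε) * (n / Real.exp 1) * Real.sqrt 2 ^ n → ¬ HomRect q (1 / 2) N n := by
  have h1 : ∀ᶠ n : ℕ in atTop, (1 - ε) ^ n < 1 / 4 :=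
    (tendsto_pow_atTop_nhds_zero_of_lt_one (by linarith) (by linarith)).eventually_lt_const
      (by norm_num)
  filter_upwards [h1, eventually_ge_atTop 1] with n h1 hn q hq N hN hcon
  have hn' : (0 : ℝ) < n := by exact_mod_cast hn
  have hs2 : 0 < Real.sqrt 2 := Real.sqrt_pos.2 (by norm_num)
  have := nb_muM_prob N
  have h2 := hcon _ (muM N) _ (nb_unif_noisy hq)
  have h3 := nb_first_moment N n
  have h4 : (N : ℝ) * (Real.exp 1 / n) / Real.sqrt 2 ^ n ≤ 1 - ε := by
    rw [div_le_iff₀ (by positivity)]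
    calc (N : ℝ) * (Real.exp 1 / n)
        ≤ ((1 - ε) * (n / Real.exp 1) * Real.sqrt 2 ^ n) * (Real.exp 1 / n) :=
          mul_le_mul_of_nonneg_right hN (by positivity)
      _ = (1 - ε) * Real.sqrt 2 ^ n := by
          field_simp
  have h5 : ((N : ℝ) * (Real.exp 1 / n) / Real.sqrt 2 ^ n) ^ (2 * n) ≤ (1 - ε) ^ n := by
    calc ((N : ℝ) * (Real.exp 1 / n) / Real.sqrt 2 ^ n) ^ (2 * n)
        ≤ (1 - ε) ^ (2 * n) := pow_le_pow_left₀ (by positivity) h4 _
      _ ≤ (1 - ε) ^ n := pow_le_pow_of_le_one (by linarith) (by linarith) (by omega)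
  linarith

/-- **The limit.** -/
theorem nb_limit {q0 : ℝ} (hq0 : 1 - 1 / Real.sqrt 2 < q0) (q : ℕ → ℝ)
    (hq : ∀ n, q0 ≤ q n) (hq1 : ∀ n, q n ≤ 1 / 2) :
    Tendsto (fun n : ℕ => (BN (q n) n : ℝ) / (n * (2 : ℝ) ^ ((n : ℝ) / 2))) atTop
      (nhds (1 / Real.exp 1)) := by
  have hs2 : 0 < Real.sqrt 2 := Real.sqrt_pos.2 (by norm_num)
  have he := Real.exp_pos 1
  rw [Metric.tendsto_atTop]
  intro ε hε
  set d : ℝ := min (ε / 2) (1 / 2) with hd
  have hd0 : 0 < d := lt_min (by positivity) (by norm_num)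
  have hd1 : d ≤ 1 / 2 := min_le_right _ _
  have hd2 : d ≤ ε / 2 := min_le_left _ _
  set d1 : ℝ := d / 4 with hd1'
  have hd10 : 0 < d1 := by positivity
  have h1 : ∀ᶠ n : ℕ in atTop, 1 ≤ d1 * ((n : ℝ) / Real.exp 1) := by
    have h2 : Tendsto (fun n : ℕ => d1 * ((n : ℝ) / Real.exp 1)) atTop atTop := by
      refine Tendsto.const_mul_atTop hd10 ?_
      exact (tendsto_natCast_atTop_atTop).atTop_div_const he
    exact h2.eventually_ge_atTop 1
  have h3 := (nb_partA hq0 hd10).and ((nb_lower hd0 (by linarith)).and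
    (h1.and (eventually_ge_atTop 1)))
  obtain ⟨n0, hn0⟩ := eventually_atTop.1 h3
  refine ⟨n0, fun n hn => ?_⟩
  obtain ⟨hA, hL, h1, hn1⟩ := hn0 n hn
  have hn' : (1 : ℝ) ≤ n := by exact_mod_cast hn1
  have hpow : (2 : ℝ) ^ ((n : ℝ) / 2) = Real.sqrt 2 ^ n := by
    rw [Real.sqrt_eq_rpow, ← Real.rpow_natCast, ← Real.rpow_mul (by norm_num)]
    congr 1
    ring
  set X : ℝ := ((n : ℝ) / Real.exp 1) * Real.sqrt 2 ^ n with hX
  have hX0 : 0 < X := by positivity
  have hs1 : (1 : ℝ) ≤ Real.sqrt 2 := by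
    rw [Real.one_le_sqrt]
    norm_num
  have hXe : 1 ≤ d1 * X := by
    have h5 : (1 : ℝ) ≤ Real.sqrt 2 ^ n := one_le_pow₀ hs1
    calc (1 : ℝ) ≤ d1 * ((n : ℝ) / Real.exp 1) := h1
      _ ≤ d1 * ((n : ℝ) / Real.exp 1) * Real.sqrt 2 ^ n :=
          le_mul_of_one_le_right (by positivity) h5
      _ = _ := by rw [hX]; ring
  set N : ℕ := ⌈(1 + d1) * X⌉₊ with hN
  have hHom : HomRect (q n) (1 / 2) N n := by
    have h5 := hA (q n) (hq n) (hq1 n) N (by
      refine le_trans (le_of_eq ?_) (Nat.le_ceil _)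
      rw [hX]
      ring)
    intro Ω _ μ _ M hM
    have := h5 Ω μ M hM
    linarith
  have hRN : BN (q n) n ≤ N := Nat.sInf_le hHom
  have hmem : HomRect (q n) (1 / 2) (BN (q n) n) n :=
    Nat.sInf_mem (s := {N : ℕ | HomRect (q n) (1 / 2) N n}) ⟨N, hHom⟩
  have hlow : (1 - d) * X ≤ (BN (q n) n : ℝ) := by
    by_contra hcon
    push Not at hcon
    refine hL (q n) (hq1 n) _ ?_ hmem
    rw [mul_assoc]
    exact hcon.le
  have hup : (BN (q n) n : ℝ) ≤ (1 + d) * X := by
    have h6 : (BN (q n) n : ℝ) ≤ N := by exact_mod_cast hRN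
    have h7 : (N : ℝ) < (1 + d1) * X + 1 := Nat.ceil_lt_add_one (by positivity)
    have h8 : (1 + d1) * X + 1 ≤ (1 + d) * X := by
      have : d1 * X + d1 * X ≤ d * X := by
        rw [hd1']
        nlinarith
      linarith
    linarith
  rw [hpow, Real.dist_eq, abs_lt]
  have hY : (n : ℝ) * Real.sqrt 2 ^ n = X * Real.exp 1 := by
    rw [hX]
    field_simp
  have hY0 : 0 < (n : ℝ) * Real.sqrt 2 ^ n := by positivity
  have he1 : 1 / Real.exp 1 ≤ 1 := by
    rw [div_le_one he]
    exact Real.one_le_exp zero_le_one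
  have h10 : (1 - d) * (1 / Real.exp 1) ≤ (BN (q n) n : ℝ) / (n * Real.sqrt 2 ^ n) := by
    rw [le_div_iff₀ hY0, hY]
    refine le_trans (le_of_eq ?_) hlow
    field_simp
  have h11 : (BN (q n) n : ℝ) / (n * Real.sqrt 2 ^ n) ≤ (1 + d) * (1 / Real.exp 1) := by
    rw [div_le_iff₀ hY0, hY]
    refine hup.trans (le_of_eq ?_)
    field_simp
  constructor
  · nlinarith
  · nlinarith

theorem nb_dirac_noisy {N : ℕ} (A : Fin N → Fin N → Bool) :
    IsNoisyMatrix 0 (Measure.dirac () : Measure Unit) (fun _ => A) := by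
  refine ⟨fun i j => MeasurableSet.of_discrete, ?_, fun i j => measureReal_nonneg,
    fun i j => ?_⟩
  · rw [iIndepSet_iff_meas_biInter (fun e => MeasurableSet.of_discrete)]
    intro s
    rw [Measure.dirac_apply' _ MeasurableSet.of_discrete]
    simp_rw [Measure.dirac_apply' _ (MeasurableSet.of_discrete (α := Unit))]
    by_cases h : ∀ e ∈ s, A e.1 e.2 = true
    · rw [Set.indicator_of_mem, prod_congr rfl (g := fun _ => (1 : ENNReal))]
      · simp
      · intro e he
        rw [Set.indicator_of_mem]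
        · rfl
        · exact h e he
      · exact Set.mem_iInter₂.2 fun e he => h e he
    · push Not at h
      obtain ⟨e, he, h'⟩ := h
      rw [Set.indicator_of_notMem, prod_eq_zero he]
      · rw [Set.indicator_of_notMem]
        exact h'
      · intro hcon
        exact h' (Set.mem_iInter₂.1 hcon e he)
  · rw [sub_zero]
    exact measureReal_le_one

theorem nb_zero (n N : ℕ) : HomRect 0 (1 / 2) N n ↔
    ∀ A : Fin N → Fin N → Bool, HasRect A n := by
  constructor
  · intro h A
    have h1 := h Unit (Measure.dirac ()) (fun _ => A) (nb_dirac_noisy A)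
    by_contra hcon
    have h2 : {ω : Unit | HasRect ((fun _ => A) ω) n} = ∅ := by
      ext ω
      simp only [Set.mem_ofPred_eq, Set.mem_empty_iff_false, iff_false]
      exact hcon
    rw [h2, measureReal_empty] at h1
    norm_num at h1
  · intro h Ω _ μ _ M _
    have h2 : {ω | HasRect (M ω) n} = Set.univ := by
      ext ω
      simp only [Set.mem_ofPred_eq, Set.mem_univ, iff_true]
      exact h (M ω)
    rw [h2, probReal_univ]
    norm_num

theorem nb_BN_zero (n : ℕ) : BN 0 n = sInf {N : ℕ | ∀ A : Fin N → Fin N → Bool, HasRect A n} := by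
  unfold BN
  congr 1
  ext N
  exact nb_zero n N

end Pool.Agent.Helper37.NoisyB
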